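import Pool.Agent.N871.S17.Min
import Pool.Agent.N875.X15.Tors
import Pool.Agent.N373.P24.Ker
import Pool.Agent.N373.P24.Odd
import Pool.Agent.Y700.VC

/-!
# The torsion subgroup of `E_m(ℚ)`, `E_m : y² = x (x + m) (x - 16 m)`, has order four

A nonzero point of odd order has `x = u²`, `x + m = v²`, `x - 16 m = w²` with integers `u`, `v`, `w`, by
the formal group at the odd primes and by doubling at two; and `2 u v w u' = ± (u⁴ + 16 m²)` with `u'`
the number `u` of the double of the point. Method and some lemmas: helper373 (level 24), helper875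
(level 15).
-/

set_option autoImplicit false
set_option linter.style.haveILetI false

namespace Pool.Agent.N871.S17

open WeierstrassCurve
open Pool.Agent.TH841.SH (IsR)
open Pool.Agent.N875.X15 (dbl_sq dbl_T isR_eqn two_tor sq_cancel card_four finite_tors)
open Pool.Agent.N373.P24 (coprime_of zero_of_two torsion_int den_lin)
open Pool.Agent.H901R3.MS (CV Pt)
open Pool.Agent.N875.P17 (Em EQm isR nonsing T4 T4_card T4_two fg_E)

open scoped Classical

/-! ### Integers -/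

lemma nsq {a c : ℤ} (h0 : 0 ≤ a) (h1 : a * a < c) (h2 : c < (a + 1) * (a + 1)) :
    ¬ IsSquare c := by
  rintro ⟨r, rfl⟩
  rcases abs_cases r with ⟨h3, h4⟩ | ⟨h3, h4⟩
  · have h5 : a < r := by nlinarith
    have h6 : r < a + 1 := by nlinarith
    omega
  · have h5 : a < -r := by nlinarith
    have h6 : -r < a + 1 := by nlinarith
    omega

lemma arith17 {m u v w u' : ℤ} (hs : Squarefree m)
    (hv : v ^ 2 = u ^ 2 + m) (hw : w ^ 2 = u ^ 2 - 16 * m)
    (hu : 4 * u ^ 2 * v ^ 2 * w ^ 2 * u' ^ 2 = (u ^ 4 + 16 * m ^ 2) ^ 2) : False := by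
  have hm0 := hs.ne_zero
  have hco : IsCoprime u m := by
    refine coprime_of (c := -1) hs ?_ (by rw [hv]; ring)
    intro q hq _ hq1
    exact hq.one_lt.ne' (Nat.dvd_one.1 hq1)
  have hcv : IsCoprime v m := by
    refine coprime_of (U := v) (V := u) (c := 1) hs ?_ (by rw [hv]; ring)
    intro q hq _ hq1
    exact hq.one_lt.ne' (Nat.dvd_one.1 hq1)
  have h2 : u ∣ u ^ 4 + 16 * m ^ 2 := (Int.pow_dvd_pow_iff two_ne_zero).1 (by
    rw [← hu]
    exact ⟨4 * v ^ 2 * w ^ 2 * u' ^ 2, by ring⟩)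
  have h2v : v ∣ u ^ 4 + 16 * m ^ 2 := (Int.pow_dvd_pow_iff two_ne_zero).1 (by
    rw [← hu]
    exact ⟨4 * u ^ 2 * w ^ 2 * u' ^ 2, by ring⟩)
  have h3 : u ∣ 16 := by
    have h4 : u ∣ 16 * m ^ 2 := (dvd_add_right (dvd_pow_self u (by norm_num))).1 h2
    exact (hco.pow_right (n := 2)).dvd_of_dvd_mul_right h4
  have h3v : v ∣ 17 := by
    have e : u ^ 4 + 16 * m ^ 2 = v * (v * (v ^ 2 - 2 * m)) + 17 * m ^ 2 := by
      have : u ^ 2 = v ^ 2 - m := by rw [hv]; ring
      have h5 : u ^ 4 = (v ^ 2 - m) ^ 2 := by rw [← this]; ring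
      rw [h5]; ring
    rw [e] at h2v
    have h4 : v ∣ 17 * m ^ 2 := (dvd_add_right (dvd_mul_right v _)).1 h2v
    exact (hcv.pow_right (n := 2)).dvd_of_dvd_mul_right h4
  have hu1 : u.natAbs ∣ 16 := Int.natAbs_dvd_natAbs.2 h3
  have hv1 : v.natAbs ∣ 17 := Int.natAbs_dvd_natAbs.2 h3v
  have hus : u ^ 2 = (u.natAbs : ℤ) ^ 2 := (Int.natAbs_sq u).symm
  have hvs : v ^ 2 = (v.natAbs : ℤ) ^ 2 := (Int.natAbs_sq v).symm
  have hu4 : u ^ 4 = ((u.natAbs : ℤ) ^ 2) ^ 2 := by rw [← hus]; ring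
  rw [hu4, hus, hvs] at hu
  rw [hus] at hw
  rw [hus, hvs] at hv
  have hu1' : u.natAbs ∈ Nat.divisors 16 := Nat.mem_divisors.2 ⟨hu1, by norm_num⟩
  have hv1' : v.natAbs ∈ Nat.divisors 17 := Nat.mem_divisors.2 ⟨hv1, by norm_num⟩
  have d16 : Nat.divisors 16 = {1, 2, 4, 8, 16} := by decide
  have d17 : Nat.divisors 17 = {1, 17} := by decide
  obtain ⟨A, hA⟩ : ∃ A, A = u.natAbs := ⟨_, rfl⟩
  obtain ⟨B, hB⟩ : ∃ B, B = v.natAbs := ⟨_, rfl⟩
  rw [← hA] at hu hw hv hu1'
  rw [← hB] at hu hv hv1'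
  rw [d16] at hu1'
  rw [d17] at hv1'
  simp only [Finset.mem_insert, Finset.mem_singleton] at hu1' hv1'
  have hwn : ∀ c : ℤ, w ^ 2 = c → IsSquare c := fun c hc => ⟨w, by rw [← hc]; ring⟩
  rcases hv1' with hB' | hB' <;> subst hB'
  · rcases hu1' with h | h | h | h | h <;> subst h
    · push_cast at hv
      apply hm0
      linarith
    · push_cast at hv hw
      exact absurd (hwn 52 (by linarith)) (nsq (a := 7) (by norm_num) (by norm_num) (by norm_num))
    · push_cast at hv hw hu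
      have h1 : w ^ 2 = 256 := by linarith
      have h2 : m = -15 := by linarith
      rw [h1, h2] at hu
      norm_num at hu
      omega
    · push_cast at hv hw
      exact absurd (hwn 1072 (by linarith))
        (nsq (a := 32) (by norm_num) (by norm_num) (by norm_num))
    · push_cast at hv hw
      exact absurd (hwn 4336 (by linarith))
        (nsq (a := 65) (by norm_num) (by norm_num) (by norm_num))
  · have hw0 := sq_nonneg w
    rcases hu1' with h | h | h | h | h <;> subst h <;> push_cast at hv hw <;> linarith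

/-! ### Points of odd order -/

variable {m : ℤ}

lemma eqnQ {x y : ℚ} (h : (EQm m).toAffine.Nonsingular x y) : y ^ 2 = x * (x + m) * (x - 16 * m) := by
  have := (isR_eqn (isR m)).1 h.1
  rw [this]
  push_cast
  ring

/-- doubling -/
lemma dblQ {x y : ℚ} (h : (EQm m).toAffine.Nonsingular x y) (hy : y ≠ 0) :
    ∃ X Y, ∃ H : (EQm m).toAffine.Nonsingular X Y,
      (Affine.Point.some x y h + Affine.Point.some x y h : (EQm m).toAffine.Point) =
        Affine.Point.some X Y H ∧ X * (2 * y) ^ 2 = (x ^ 2 + 16 * m ^ 2) ^ 2 := by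
  have hR := isR m
  have hneg : y ≠ (EQm m).toAffine.negY x y := by
    intro h1
    apply hy
    rw [Affine.negY, hR.h1, hR.h3] at h1
    linear_combination (1 / 2 : ℚ) * h1
  rw [Affine.Point.add_self_of_Y_ne hneg]
  refine ⟨_, _, _, rfl, ?_⟩
  have q1 := eqnQ h
  have h2y : 2 * y ≠ 0 := mul_ne_zero two_ne_zero hy
  have hs : (EQm m).toAffine.slope x x y y = (3 * x ^ 2 - 30 * m * x - 16 * m ^ 2) / (2 * y) := by
    rw [Affine.slope_of_Y_ne rfl hneg, Affine.negY, hR.h1, hR.h2, hR.h3, hR.h4]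
    congr 1
    · push_cast; ring
    · ring
  rw [Affine.addX, hs, hR.h1, hR.h2, zero_mul, add_zero]
  push_cast
  field_simp
  linear_combination (-4 * (2 * x - 15 * m)) * q1

lemma val_dbl (hm : m ≠ 0) {x y X : ℚ} (h1 : y ^ 2 = x * (x + m) * (x - 16 * m)) (hy : y ≠ 0)
    (h2 : X * (2 * y) ^ 2 = (x ^ 2 + 16 * m ^ 2) ^ 2) (hx : padicValRat 2 x < 0) :
    padicValRat 2 X = padicValRat 2 x - 2 := by
  have hx0 : x ≠ 0 := by
    rintro rfl
    simp at hx
  have hy2 : y ^ 2 ≠ 0 := pow_ne_zero 2 hy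
  have hxm : x + m ≠ 0 := by
    intro h
    rw [h1, h] at hy2
    simp at hy2
  have hxm3 : x - 16 * m ≠ 0 := by
    intro h
    rw [h1, h] at hy2
    simp at hy2
  have hmQ : (m : ℚ) ≠ 0 := by exact_mod_cast hm
  have hint : ∀ z : ℤ, 0 ≤ padicValRat 2 (z : ℚ) := by
    intro z
    rw [padicValRat.of_int]
    exact Int.natCast_nonneg _
  have hpos : (0 : ℚ) < x ^ 2 + 16 * m ^ 2 := by positivity
  have v1 : padicValRat 2 (x + m) = padicValRat 2 x :=
    padicValRat.add_eq_of_lt hxm hx0 hmQ (lt_of_lt_of_le hx (hint _))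
  have v2 : padicValRat 2 (x - 16 * m) = padicValRat 2 x := by
    have e : x - 16 * (m : ℚ) = x + ((-16 * m : ℤ) : ℚ) := by push_cast; ring
    rw [e]
    refine padicValRat.add_eq_of_lt (by rw [← e]; exact hxm3) hx0 ?_ (lt_of_lt_of_le hx (hint _))
    push_cast
    exact mul_ne_zero (by norm_num) hmQ
  have v3 : padicValRat 2 (x ^ 2 + 16 * m ^ 2) = 2 * padicValRat 2 x := by
    have e : x ^ 2 + 16 * (m : ℚ) ^ 2 = x ^ 2 + ((16 * m ^ 2 : ℤ) : ℚ) := by push_cast; ring
    have e2 : padicValRat 2 (x ^ 2) = 2 * padicValRat 2 x := by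
      rw [padicValRat.pow]
      push_cast
      ring
    rw [e, ← e2]
    refine padicValRat.add_eq_of_lt (by rw [← e]; exact hpos.ne') (pow_ne_zero 2 hx0) ?_ ?_
    · push_cast
      exact mul_ne_zero (by norm_num) (pow_ne_zero 2 hmQ)
    · rw [e2]
      exact lt_of_lt_of_le (by linarith) (hint _)
  have v4 : padicValRat 2 (y ^ 2) = 3 * padicValRat 2 x := by
    rw [h1, padicValRat.mul (mul_ne_zero hx0 hxm) hxm3, padicValRat.mul hx0 hxm, v1, v2]
    ring
  have hX0 : X ≠ 0 := by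
    rintro rfl
    rw [zero_mul] at h2
    exact (pow_ne_zero 2 hpos.ne') h2.symm
  have v5 : padicValRat 2 (X * (2 * y) ^ 2) = padicValRat 2 X + 2 + 3 * padicValRat 2 x := by
    have e : X * (2 * y) ^ 2 = X * 2 ^ 2 * y ^ 2 := by ring
    rw [e, padicValRat.mul (mul_ne_zero hX0 (by norm_num)) hy2,
      padicValRat.mul hX0 (by norm_num), padicValRat.pow, v4]
    have : padicValRat 2 (2 : ℚ) = 1 := by
      have := padicValRat.self (p := 2) (by norm_num)
      exact_mod_cast this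
    rw [this]
    ring
  rw [h2, padicValRat.pow, v3] at v5
  push_cast at v5
  linarith

lemma y_ne {x y : ℚ} (h : (EQm m).toAffine.Nonsingular x y) {N : ℕ} (hN : Odd N)
    (hP : N • (Affine.Point.some x y h : (EQm m).toAffine.Point) = 0) : y ≠ 0 := by
  rintro rfl
  exact Affine.Point.some_ne_zero h (zero_of_two hN hP (dbl_T (isR m) h))

lemma two_adic (hm : m ≠ 0) {x y : ℚ} (h : (EQm m).toAffine.Nonsingular x y) {N : ℕ} (hN : Odd N)
    (hP : N • (Affine.Point.some x y h : (EQm m).toAffine.Point) = 0) : 0 ≤ padicValRat 2 x := by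
  by_contra hx
  push Not at hx
  have key : ∀ j : ℕ, ∃ X Y, ∃ H : (EQm m).toAffine.Nonsingular X Y,
      2 ^ j • (Affine.Point.some x y h : (EQm m).toAffine.Point) = Affine.Point.some X Y H ∧
        padicValRat 2 X = padicValRat 2 x - 2 * j := by
    intro j
    induction j with
    | zero => exact ⟨x, y, h, by rw [pow_zero, one_nsmul], by simp⟩
    | succ j ih =>
      obtain ⟨X, Y, H, e1, e2⟩ := ih
      have hN' : N • (Affine.Point.some X Y H : (EQm m).toAffine.Point) = 0 := by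
        rw [← e1, ← mul_nsmul', mul_comm, mul_nsmul', hP, nsmul_zero]
      have hY := y_ne H hN hN'
      obtain ⟨X', Y', H', e3, e4⟩ := dblQ H hY
      refine ⟨X', Y', H', ?_, ?_⟩
      · rw [pow_succ, mul_comm, mul_nsmul', two_nsmul, e1, e3]
      · rw [val_dbl hm (eqnQ H) hY e4 (by rw [e2]; have : (0 : ℤ) ≤ j := Int.natCast_nonneg j; linarith),
          e2]
        push_cast
        ring
  have hN0 : 0 < N := hN.pos
  obtain ⟨X, Y, H, e1, e2⟩ := key (Nat.totient N)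
  have hmod : 2 ^ Nat.totient N ≡ 1 [MOD N] := Nat.ModEq.pow_totient (Nat.coprime_two_left.2 hN)
  have h1 : 2 ^ Nat.totient N • (Affine.Point.some x y h : (EQm m).toAffine.Point) =
      Affine.Point.some x y h := by
    have h2 : N ∣ 2 ^ Nat.totient N - 1 := (Nat.modEq_iff_dvd' Nat.one_le_two_pow).1 hmod.symm
    obtain ⟨c, hc⟩ := h2
    have h3 : 2 ^ Nat.totient N = c * N + 1 := by
      have := Nat.one_le_two_pow (n := Nat.totient N)
      rw [mul_comm] at hc
      omega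
    rw [h3, add_nsmul, one_nsmul, mul_nsmul', hP, nsmul_zero, zero_add]
  rw [h1] at e1
  injection e1 with e3 e4
  rw [← e3] at e2
  have h5 : 0 < Nat.totient N := Nat.totient_pos.2 hN0
  have h6 : (0 : ℤ) < (Nat.totient N : ℕ) := by exact_mod_cast h5
  linarith

lemma Em_delta_ne (hm : m ≠ 0) : (EQm m).Δ ≠ 0 := by
  rw [map_Δ, Em_Δ]
  have : (2 ^ 12 * 17 ^ 2 * m ^ 6 : ℤ) ≠ 0 := mul_ne_zero (by norm_num) (pow_ne_zero 6 hm)
  rw [eq_intCast]
  exact Int.cast_ne_zero.2 this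

lemma vrE (m : ℤ) : Pool.Agent.Y700.VR (CV ((-91 * m ^ 2 : ℤ) : ℚ) ((-330 * m ^ 3 : ℤ) : ℚ)) (EQm m)
    1 (-5 * m) 0 0 := by
  refine ⟨by norm_num, ?_, ?_, ?_, ?_, ?_⟩ <;> simp [CV, Em] <;> ring

/-- the first coordinate of a point of odd order is an integer -/
lemma int1 (hm : m ≠ 0) {x y : ℚ} (h : (EQm m).toAffine.Nonsingular x y) {N : ℕ} (hN : Odd N)
    (hP : N • (Affine.Point.some x y h : (EQm m).toAffine.Point) = 0) : ∃ z : ℤ, x = z := by
  have hD := Em_delta_ne hm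
  have hfin : IsOfFinAddOrder (Affine.Point.some x y h : (EQm m).toAffine.Point) :=
    isOfFinAddOrder_iff_nsmul_eq_zero.2 ⟨N, hN.pos, hP⟩
  have hfin' := ((vrE m).equiv hD).toAddMonoidHom.isOfFinAddOrder hfin
  have e : ((vrE m).equiv hD).toAddMonoidHom (Affine.Point.some x y h) =
      (vrE m).fn hD (Affine.Point.some x y h) := rfl
  rw [e, (vrE m).fn_some hD h] at hfin'
  have hodd : ∀ p : ℕ, p.Prime → p ≠ 2 → ¬ p ∣ ((1 : ℚ) ^ 2 * x + -5 * m).den := by
    intro p hp hp2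
    haveI := Fact.mk hp
    exact torsion_int p hp2 _ _ _ hfin'
  have h2 : ¬ 2 ∣ x.den := by
    intro hd
    have h0 := two_adic hm h hN hP
    rw [padicValRat_def] at h0
    have h1 : 1 ≤ padicValNat 2 x.den := one_le_padicValNat_of_dvd x.den_nz hd
    have h3 : padicValInt 2 x.num = 0 := by
      rw [padicValInt]
      apply padicValNat.eq_zero_of_not_dvd
      intro h4
      have h5 := Nat.dvd_gcd h4 hd
      rw [x.reduced] at h5
      omega
    rw [h3] at h0
    have h4 : (1 : ℤ) ≤ (padicValNat 2 x.den : ℤ) := by exact_mod_cast h1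
    push_cast at h0
    linarith
  have h1 : ((1 : ℚ) ^ 2 * x + -5 * m).den = 1 := by
    by_contra hne
    obtain ⟨p, hp, hpd⟩ := Nat.exists_prime_and_dvd hne
    by_cases hp2 : p = 2
    · subst hp2
      have e2 : (1 : ℚ) ^ 2 * x + -5 * m = ((1 : ℤ) : ℚ) * x + ((-5 * m : ℤ) : ℚ) := by push_cast; ring
      rw [e2] at hpd
      exact h2 (hpd.trans (den_lin x 1 (-5 * m)))
    · exact hodd p hp hp2 hpd
  refine ⟨((1 : ℚ) ^ 2 * x + -5 * m).num + 5 * m, ?_⟩
  have h3 : (((1 : ℚ) ^ 2 * x + -5 * m).num : ℚ) = (1 : ℚ) ^ 2 * x + -5 * m :=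
    Rat.coe_int_num_of_den_eq_one h1
  push_cast
  rw [h3]
  ring

lemma sq_int {q : ℚ} (z : ℤ) (hz : q = z) (hq : IsSquare q) : ∃ U : ℤ, q = (U : ℚ) ^ 2 := by
  rw [hz, Rat.isSquare_intCast_iff] at hq
  obtain ⟨U, hU⟩ := hq
  refine ⟨U, ?_⟩
  rw [hz, hU]
  push_cast
  ring

lemma data (hm : m ≠ 0) {x y : ℚ} (h : (EQm m).toAffine.Nonsingular x y) {N : ℕ} (hN : Odd N)
    (hP : N • (Affine.Point.some x y h : (EQm m).toAffine.Point) = 0) :
    ∃ U V W : ℤ, x = (U : ℚ) ^ 2 ∧ x + m = (V : ℚ) ^ 2 ∧ x - 16 * m = (W : ℚ) ^ 2 := by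
  obtain ⟨z, hz⟩ := int1 hm h hN hP
  obtain ⟨k, hk⟩ := hN
  -- half of the point
  have hhalf : ∃ x' y', ∃ h' : (EQm m).toAffine.Nonsingular x' y', y' ≠ 0 ∧
      (Affine.Point.some x' y' h' + Affine.Point.some x' y' h' : (EQm m).toAffine.Point) =
        Affine.Point.some x y h := by
    obtain ⟨Q, hQ⟩ : ∃ Q, Q = (k + 1) • (Affine.Point.some x y h : (EQm m).toAffine.Point) := ⟨_, rfl⟩
    have h1 : Q + Q = Affine.Point.some x y h := by
      rw [hQ, ← add_nsmul]
      have : k + 1 + (k + 1) = N + 1 := by omega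
      rw [this, add_nsmul, hP, one_nsmul, zero_add]
    rcases Q with _ | ⟨x', y', h'⟩
    · exact absurd h1.symm (Affine.Point.some_ne_zero h)
    · refine ⟨x', y', h', ?_, h1⟩
      rintro rfl
      rw [dbl_T (isR m) h'] at h1
      exact Affine.Point.some_ne_zero h h1.symm
  obtain ⟨x', y', h', hy', he⟩ := hhalf
  have hR := isR m
  have k1 := dbl_sq hR two_ne_zero h' hy' h he
  have k2 := dbl_sq hR.rot two_ne_zero h' hy' h he
  have k3 := dbl_sq hR.rot.rot two_ne_zero h' hy' h he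
  obtain ⟨U, hU⟩ := sq_int (q := x) z hz (by simpa using k1)
  have k2' : IsSquare (x + (m : ℚ)) := by
    have e : x - ((-m : ℤ) : ℚ) = x + m := by push_cast; ring
    rw [← e]; exact k2
  have k3' : IsSquare (x - 16 * (m : ℚ)) := by
    have e : x - ((16 * m : ℤ) : ℚ) = x - 16 * m := by push_cast; ring
    rw [← e]; exact k3
  obtain ⟨V, hV⟩ := sq_int (q := x + m) (z + m) (by push_cast; rw [hz]) k2'
  obtain ⟨W, hW⟩ := sq_int (q := x - 16 * m) (z - 16 * m) (by push_cast; rw [hz]) k3'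
  exact ⟨U, V, W, hU, hV, hW⟩

/-- the relation between a point and its double -/
lemma rel {x y X : ℚ} {U V W U' : ℤ} (h1 : y ^ 2 = x * (x + m) * (x - 16 * m))
    (h2 : X * (2 * y) ^ 2 = (x ^ 2 + 16 * m ^ 2) ^ 2) (hU : x = (U : ℚ) ^ 2)
    (hV : (x + m) = (V : ℚ) ^ 2) (hW : (x - 16 * m) = (W : ℚ) ^ 2)
    (hU' : X = (U' : ℚ) ^ 2) :
    4 * U ^ 2 * V ^ 2 * W ^ 2 * U' ^ 2 = (U ^ 4 + 16 * m ^ 2) ^ 2 := by
  have h : (4 * (U : ℚ) ^ 2 * V ^ 2 * W ^ 2 * U' ^ 2) = ((U : ℚ) ^ 4 + 16 * m ^ 2) ^ 2 := by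
    have e4 : (U : ℚ) ^ 4 = ((U : ℚ) ^ 2) ^ 2 := by ring
    rw [e4, ← hU, ← hV, ← hW, ← hU']
    linear_combination h2 - 4 * X * h1
  exact_mod_cast h

/-- **There is no nonzero point of odd order.** -/
theorem no_odd (hs : Squarefree m)
    (P : (EQm m).toAffine.Point) {N : ℕ} (hN : Odd N) (hP : N • P = 0) : P = 0 := by
  by_contra hne
  have hm0 := hs.ne_zero
  rcases P with _ | ⟨x, y, h⟩
  · exact hne rfl
  obtain ⟨X, Y, H, e1, e2⟩ := dblQ h (y_ne h hN hP)
  have hP' : N • (Affine.Point.some X Y H : (EQm m).toAffine.Point) = 0 := by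
    rw [← e1, nsmul_add, hP, add_zero]
  obtain ⟨U, V, W, hU, hV, hW⟩ := data hm0 h hN hP
  obtain ⟨U', V', W', hU', hV', hW'⟩ := data hm0 H hN hP'
  refine arith17 (u := U) (v := V) (w := W) (u' := U') hs ?_ ?_
    (rel (eqnQ h) e2 hU hV hW hU')
  · have h3 : (V : ℚ) ^ 2 = (U : ℚ) ^ 2 + m := by rw [← hU, ← hV]
    exact_mod_cast h3
  · have h3 : (W : ℚ) ^ 2 = (U : ℚ) ^ 2 - 16 * m := by rw [← hU, ← hW]
    exact_mod_cast h3

/-! ### Points of order four -/

lemma nsq17 : ¬ IsSquare (17 : ℚ) := by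
  intro h
  have h1 : IsSquare (((17 : ℤ)) : ℚ) := by exact_mod_cast h
  rw [Rat.isSquare_intCast_iff] at h1
  exact nsq (a := 4) (by norm_num) (by norm_num) (by norm_num) h1

/-- there is no rational point of order four -/
theorem no_four (hm : m ≠ 0) (P : (EQm m).toAffine.Point)
    (h : (P + P) + (P + P) = 0) : P + P = 0 := by
  by_contra hne
  have hR := isR m
  obtain ⟨e, he, hP2, hee⟩ := two_tor hR two_ne_zero h hne
  have hmQ : (m : ℚ) ≠ 0 := by exact_mod_cast hm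
  rcases P with _ | ⟨x, y, hxy⟩
  · exact hne (add_zero _)
  have hy : y ≠ 0 := by
    rintro rfl
    exact hne (dbl_T hR hxy)
  have k1 := dbl_sq hR two_ne_zero hxy hy he hP2
  have k2 := dbl_sq hR.rot two_ne_zero hxy hy he hP2
  have k3 := dbl_sq hR.rot.rot two_ne_zero hxy hy he hP2
  rcases hee with rfl | rfl | rfl
  · have e2 : (((0 : ℤ)) : ℚ) - ((-m : ℤ) : ℚ) = m := by push_cast; ring
    have e3 : (((0 : ℤ)) : ℚ) - ((16 * m : ℤ) : ℚ) = -(16 * m) := by push_cast; ring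
    rw [e2] at k2
    rw [e3] at k3
    have a1 := k2.nonneg
    have a2 := k3.nonneg
    apply hmQ
    linarith
  · have e1 : ((-m : ℤ) : ℚ) - ((0 : ℤ) : ℚ) = -(m : ℚ) := by push_cast; ring
    have e3 : ((-m : ℤ) : ℚ) - ((16 * m : ℤ) : ℚ) = -(m : ℚ) * 17 := by push_cast; ring
    rw [e1] at k1
    rw [e3] at k3
    exact nsq17 (sq_cancel (neg_ne_zero.2 hmQ) k1 k3)
  · have e1 : ((16 * m : ℤ) : ℚ) - ((0 : ℤ) : ℚ) = 4 * 4 * (m : ℚ) := by push_cast; ring
    have e2 : ((16 * m : ℤ) : ℚ) - ((-m : ℤ) : ℚ) = (m : ℚ) * 17 := by push_cast; ring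
    rw [e1] at k1
    rw [e2] at k2
    exact nsq17 (sq_cancel hmQ (sq_cancel (by norm_num : (4 * 4 : ℚ) ≠ 0) ⟨4, rfl⟩ k1) k2)

/-- the points killed by two -/
theorem mem_T4 (hm : m ≠ 0) {P : (EQm m).toAffine.Point} (h : P + P = 0) : P ∈ T4 hm := by
  by_cases hP : P = 0
  · rw [hP]
    unfold T4
    exact Finset.mem_insert_self _ _
  · obtain ⟨x, hx, rfl, hxx⟩ := two_tor (isR m) two_ne_zero h hP
    unfold T4
    rw [Finset.mem_insert, Finset.mem_insert, Finset.mem_insert, Finset.mem_singleton]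
    right
    rcases hxx with rfl | rfl | rfl
    · left
      congr 1
    · right; left
      congr 1
    · right; right
      congr 1
      push_cast
      rfl

/-- **The torsion subgroup has order four.** -/
theorem tors_Em (hs : Squarefree m) :
    Nat.card (AddCommGroup.torsion (EQm m).toAffine.Point) = 4 := by
  have hm := hs.ne_zero
  have hfin : Finite (AddCommGroup.torsion (EQm m).toAffine.Point) := finite_tors (fg_E hm)
  obtain ⟨t, ht, he⟩ : ∃ t : ℕ, Odd t ∧
      Nat.card (AddCommGroup.torsion (EQm m).toAffine.Point) = 4 * t := by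
    refine card_four ?_ ?_
    · have e : {x : AddCommGroup.torsion (EQm m).toAffine.Point // x + x = 0} ≃ (T4 hm : Finset _) :=
        { toFun := fun x => ⟨x.1.1, mem_T4 hm (congrArg Subtype.val x.2)⟩
          invFun := fun x => ⟨⟨x.1, by
            have h1 : IsOfFinAddOrder x.1 := isOfFinAddOrder_iff_nsmul_eq_zero.2
              ⟨2, two_pos, by rw [two_nsmul]; exact T4_two hm _ x.2⟩
            exact h1⟩, Subtype.ext (T4_two hm _ x.2)⟩
          left_inv := fun x => rfl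
          right_inv := fun x => rfl }
      rw [Nat.card_congr e, Nat.card_eq_fintype_card, Fintype.card_coe, T4_card]
    · rintro ⟨x, hx⟩ h
      apply Subtype.ext
      exact no_four hm x (congrArg Subtype.val h)
  by_cases ht1 : t = 1
  · rw [he, ht1]
  exfalso
  obtain ⟨l, hl, hlt⟩ := Nat.exists_prime_and_dvd ht1
  have hl2 : Odd l := by
    obtain ⟨c, rfl⟩ := hlt
    exact (Nat.odd_mul.1 ht).1
  haveI := Fact.mk hl
  obtain ⟨x, hx⟩ := exists_prime_addOrderOf_dvd_card' (G := AddCommGroup.torsion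
    (EQm m).toAffine.Point) l (by
      rw [he]
      exact hlt.mul_left 4)
  have h2 : l • x = 0 := by
    rw [← hx]
    exact addOrderOf_nsmul_eq_zero x
  have h3 : l • (x : (EQm m).toAffine.Point) = 0 := congrArg Subtype.val h2
  have h4 := no_odd hs _ hl2 h3
  have h5 : x = 0 := Subtype.ext h4
  rw [h5, addOrderOf_zero] at hx
  exact hl.one_lt.ne hx

end Pool.Agent.N871.S17
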