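import Pool.Agent.N871.S17.Min
import Pool.Agent.N974.Gen.Models
import Pool.Agent.N974.Gen.ChP
import Pool.Agent.N875.X15.Crit

/-!
# The coefficients `a_p` of the twists of `17a2`
-/

set_option autoImplicit false
set_option linter.style.haveILetI false

open scoped Classical

namespace Pool.Agent.N871.S17

open Pool.Agent.W97.MT (affCount ap)
open Pool.Agent.N974.Gen (E17 ap_char char_aff char_isog two_ne rc cnt17 ap17_2)
open Pool.Agent.Y687 (cnt cnt_eq)
open Pool.Agent.N875.P17 (Em)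

section odd

variable {p : ℕ} [Fact p.Prime] (hp : p ≠ 2)
include hp

lemma four_ne : (4 : ZMod p) ≠ 0 := by
  rw [show (4 : ZMod p) = 2 * 2 by norm_num]
  exact mul_ne_zero (two_ne hp) (two_ne hp)

/-- the character sum -/
theorem ap_WN_sum {m : ℤ} (h4 : m % 4 = 1) : ap (WN m) p = -∑ x : ZMod p, quadraticChar (ZMod p)
    (x ^ 3 - 15 * (m : ZMod p) * x ^ 2 - 16 * (m : ZMod p) ^ 2 * x) := by
  rw [ap_char hp]
  congr 1
  obtain ⟨k, rfl⟩ : ∃ k, m = 4 * k + 1 := ⟨m / 4, by omega⟩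
  refine char_aff hp (m := 4) (t := 0) (u := 4) (four_ne hp) (four_ne hp) fun x => ?_
  rw [WN_k]
  simp only [WeierstrassCurve.b₂, WeierstrassCurve.b₄, WeierstrassCurve.b₆]
  push_cast
  ring

theorem ap_Em_sum (m : ℤ) : ap (Em m) p = -∑ x : ZMod p, quadraticChar (ZMod p)
    (x ^ 3 - 15 * (m : ZMod p) * x ^ 2 - 16 * (m : ZMod p) ^ 2 * x) := by
  rw [ap_char hp]
  congr 1
  refine char_aff hp (m := 1) (t := 0) (u := 2⁻¹) one_ne_zero (inv_ne_zero (two_ne hp))
    fun x => ?_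
  have h2 := two_ne hp
  simp only [Em, WeierstrassCurve.b₂, WeierstrassCurve.b₄, WeierstrassCurve.b₆]
  push_cast
  field_simp
  ring

theorem sum_dvd {m : ℤ} (h : (p : ℤ) ∣ m) : ∑ x : ZMod p, quadraticChar (ZMod p)
    (x ^ 3 - 15 * (m : ZMod p) * x ^ 2 - 16 * (m : ZMod p) ^ 2 * x) = 0 := by
  have hM0 : (m : ZMod p) = 0 := (ZMod.intCast_zmod_eq_zero_iff_dvd m p).2 h
  rw [hM0]
  have : ∑ x : ZMod p, quadraticChar (ZMod p) (x ^ 3 - 15 * 0 * x ^ 2 - 16 * 0 ^ 2 * x) =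
      ∑ x : ZMod p, quadraticChar (ZMod p) x := by
    refine Finset.sum_congr rfl fun x _ => ?_
    have e : x ^ 3 - 15 * 0 * x ^ 2 - 16 * 0 ^ 2 * x = x ^ 2 * x := by ring
    rw [e, map_mul]
    by_cases hx : x = 0
    · rw [hx]; simp
    · rw [quadraticChar_sq_one' hx, one_mul]
  rw [this, quadraticChar_sum_zero (rc hp)]

theorem sum_one : -∑ x : ZMod p, quadraticChar (ZMod p)
    (x ^ 3 - 15 * ((1 : ℤ) : ZMod p) * x ^ 2 - 16 * ((1 : ℤ) : ZMod p) ^ 2 * x) = ap E17 p := by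
  have hpp : p.Prime := Fact.out
  rw [← cnt17 hpp hp, cnt_eq _ _ p hp]
  congr 1
  exact char_aff hp (m := 1) (t := -5) (u := 1) one_ne_zero one_ne_zero (by
    intro x; push_cast; ring)

theorem sum_ndvd {m : ℤ} (h : ¬ (p : ℤ) ∣ m) : -∑ x : ZMod p, quadraticChar (ZMod p)
    (x ^ 3 - 15 * (m : ZMod p) * x ^ 2 - 16 * (m : ZMod p) ^ 2 * x) = ap E17 p * jacobiSym m p := by
  have hM0 : (m : ZMod p) ≠ 0 := by
    intro h1
    exact h ((ZMod.intCast_zmod_eq_zero_iff_dvd m p).1 h1)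
  have h5 : quadraticChar (ZMod p) (m : ZMod p) = jacobiSym m p := by
    rw [← jacobiSym.legendreSym.to_jacobiSym]
    rfl
  rw [← sum_one hp, ← h5, neg_mul, Finset.sum_mul]
  congr 1
  symm
  refine Fintype.sum_equiv (Equiv.mulLeft₀ (m : ZMod p) hM0) _ _ fun x => ?_
  have h4 : quadraticChar (ZMod p) (m : ZMod p) = quadraticChar (ZMod p) ((m : ZMod p) ^ 3) := by
    rw [pow_succ, map_mul, quadraticChar_sq_one' hM0, one_mul]
  rw [h4, ← map_mul, Equiv.mulLeft₀_apply]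
  congr 1
  push_cast
  ring

end odd

theorem ap_two {m : ℤ} (hm : m % 4 = 1) : ap (WN m) 2 = if m % 8 = 1 then -1 else 1 := by
  obtain ⟨k, rfl⟩ : ∃ k, m = 4 * k + 1 := ⟨m / 4, by omega⟩
  rw [WN_k]
  unfold ap affCount
  have b0 : ((-((4 * k + 1) ^ 2) : ℤ) : ZMod 2) = 1 := by
    have e : (-((4 * k + 1) ^ 2) : ℤ) = 2 * (-(8 * k ^ 2 + 4 * k + 1)) + 1 := by ring
    rw [e]
    push_cast
    have : (2 : ZMod 2) = 0 := rfl
    rw [this]
    ring
  rcases (by omega : (4 * k + 1) % 8 = 1 ∨ (4 * k + 1) % 8 = 5) with h8 | h8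
  · rw [if_pos h8]
    have a0 : ((-(15 * k + 4) : ℤ) : ZMod 2) = 0 :=
      (ZMod.intCast_zmod_eq_zero_iff_dvd _ 2).2 (by push_cast; omega)
    have e : Nat.card {P : ZMod 2 × ZMod 2 //
        ((⟨1, -(15 * k + 4), 0, -((4 * k + 1) ^ 2), 0⟩ : WeierstrassCurve ℤ).map
          (Int.castRingHom (ZMod 2))).toAffine.Equation P.1 P.2} =
          Nat.card {P : ZMod 2 × ZMod 2 // P.2 ^ 2 + P.1 * P.2 = P.1 ^ 3 + P.1} := by
      refine Nat.card_congr (Equiv.subtypeEquivRight fun P => ?_)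
      rw [WeierstrassCurve.Affine.equation_iff]
      simp only [WeierstrassCurve.map, map_one, map_zero, eq_intCast, a0, b0]
      ring_nf
    rw [e, Nat.card_eq_fintype_card]
    have e2 : Fintype.card {P : ZMod 2 × ZMod 2 // P.2 ^ 2 + P.1 * P.2 = P.1 ^ 3 + P.1} = 3 := by
      decide
    simp only [e2]
    norm_num
  · rw [if_neg (by omega)]
    have a0 : ((-(15 * k + 4) : ℤ) : ZMod 2) = 1 := by
      have : (-(15 * k + 4) : ℤ) = 2 * ((-(15 * k + 4) - 1) / 2) + 1 := by omega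
      rw [this]
      push_cast
      have : (2 : ZMod 2) = 0 := rfl
      rw [this]
      ring
    have e : Nat.card {P : ZMod 2 × ZMod 2 //
        ((⟨1, -(15 * k + 4), 0, -((4 * k + 1) ^ 2), 0⟩ : WeierstrassCurve ℤ).map
          (Int.castRingHom (ZMod 2))).toAffine.Equation P.1 P.2} =
          Nat.card {P : ZMod 2 × ZMod 2 // P.2 ^ 2 + P.1 * P.2 = P.1 ^ 3 + P.1 ^ 2 + P.1} := by
      refine Nat.card_congr (Equiv.subtypeEquivRight fun P => ?_)
      rw [WeierstrassCurve.Affine.equation_iff]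
      simp only [WeierstrassCurve.map, map_one, map_zero, eq_intCast, a0, b0]
      ring_nf
    rw [e, Nat.card_eq_fintype_card]
    have e2 : Fintype.card {P : ZMod 2 × ZMod 2 //
        P.2 ^ 2 + P.1 * P.2 = P.1 ^ 3 + P.1 ^ 2 + P.1} = 1 := by
      decide
    simp only [e2]
    norm_num

theorem jac_zero {p n : ℕ} (hp : p.Prime) (hn : n ≠ 0) (h : p ∣ n) : jacobiSym p n = 0 := by
  rw [jacobiSym.eq_zero_iff]
  refine ⟨hn, ?_⟩
  intro h1
  have h3 : Nat.gcd p n = 1 := by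
    have : Int.gcd ((p : ℕ) : ℤ) n = Nat.gcd p n := by simp
    rw [← this]; exact h1
  have h5 : p ∣ Nat.gcd p n := Nat.dvd_gcd dvd_rfl h
  rw [h3] at h5
  exact hp.one_lt.ne' (Nat.dvd_one.1 h5)

/-- **The coefficients of the twist by `m = 1 mod 4`.** -/
theorem ap_WN {m : ℤ} (h4 : m % 4 = 1) (p : ℕ) (hp : p.Prime) :
    ap (WN m) p = ap E17 p * jacobiSym p m.natAbs := by
  have : Fact p.Prime := ⟨hp⟩
  have hn0 : m.natAbs ≠ 0 := by omega
  rcases hp.eq_two_or_odd' with h2 | h2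
  · subst h2
    have hodd : Odd m.natAbs := Nat.odd_iff.2 (by omega)
    have e2 : jacobiSym ((2 : ℕ) : ℤ) m.natAbs = jacobiSym 2 m.natAbs := by norm_num
    rw [ap_two h4, ap17_2, e2, jacobiSym.at_two hodd, ZMod.χ₈_nat_eq_if_mod_eight]
    have h3 : m.natAbs % 2 = 1 := Nat.odd_iff.1 hodd
    by_cases h8 : m % 8 = 1
    · rw [if_pos h8, if_neg (show ¬ m.natAbs % 2 = 0 by omega),
        if_pos (show m.natAbs % 8 = 1 ∨ m.natAbs % 8 = 7 by omega)]
      norm_num
    · rw [if_neg h8, if_neg (show ¬ m.natAbs % 2 = 0 by omega),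
        if_neg (show ¬ (m.natAbs % 8 = 1 ∨ m.natAbs % 8 = 7) by omega)]
      norm_num
  · have hp2 : p ≠ 2 := by rintro rfl; exact absurd h2 (by decide)
    rw [ap_WN_sum hp2 h4]
    by_cases hd : (p : ℤ) ∣ m
    · rw [sum_dvd hp2 hd, jac_zero hp hn0 (Int.natCast_dvd.1 hd)]
      ring
    · rw [sum_ndvd hp2 hd, Pool.Agent.N875.X15.recip h4 h2]

theorem ap_Em_two (m : ℤ) : ap (Em m) 2 = 0 := by
  unfold ap affCount
  have a0 : ((-16 * m ^ 2 : ℤ) : ZMod 2) = 0 :=
    (ZMod.intCast_zmod_eq_zero_iff_dvd _ 2).2 ⟨-8 * m ^ 2, by push_cast; ring⟩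
  rcases Int.emod_two_eq_zero_or_one m with h | h
  · have b0 : ((-15 * m : ℤ) : ZMod 2) = 0 :=
      (ZMod.intCast_zmod_eq_zero_iff_dvd _ 2).2 (by push_cast; omega)
    have e : Nat.card {P : ZMod 2 × ZMod 2 //
        ((Em m).map (Int.castRingHom (ZMod 2))).toAffine.Equation P.1 P.2} =
          Nat.card {P : ZMod 2 × ZMod 2 // P.2 ^ 2 = P.1 ^ 3} := by
      refine Nat.card_congr (Equiv.subtypeEquivRight fun P => ?_)
      rw [WeierstrassCurve.Affine.equation_iff]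
      simp only [Em, WeierstrassCurve.map, map_zero, eq_intCast, a0, b0]
      ring_nf
    rw [e, Nat.card_eq_fintype_card]
    have e2 : Fintype.card {P : ZMod 2 × ZMod 2 // P.2 ^ 2 = P.1 ^ 3} = 2 := by
      decide
    simp only [e2]
    norm_num
  · have b0 : ((-15 * m : ℤ) : ZMod 2) = 1 := by
      have : (-15 * m : ℤ) = 2 * ((-15 * m - 1) / 2) + 1 := by omega
      rw [this]
      push_cast
      have : (2 : ZMod 2) = 0 := rfl
      rw [this]
      ring
    have e : Nat.card {P : ZMod 2 × ZMod 2 //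
        ((Em m).map (Int.castRingHom (ZMod 2))).toAffine.Equation P.1 P.2} =
          Nat.card {P : ZMod 2 × ZMod 2 // P.2 ^ 2 = P.1 ^ 3 + P.1 ^ 2} := by
      refine Nat.card_congr (Equiv.subtypeEquivRight fun P => ?_)
      rw [WeierstrassCurve.Affine.equation_iff]
      simp only [Em, WeierstrassCurve.map, map_zero, eq_intCast, a0, b0]
      ring_nf
    rw [e, Nat.card_eq_fintype_card]
    have e2 : Fintype.card {P : ZMod 2 × ZMod 2 // P.2 ^ 2 = P.1 ^ 3 + P.1 ^ 2} = 2 := by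
      decide
    simp only [e2]
    norm_num

/-- **The coefficients of the twist by `m ≢ 1 mod 4`**, odd primes. -/
theorem ap_Em {m : ℤ} (p : ℕ) (hp : p.Prime) (hp2 : p ≠ 2) :
    ap (Em m) p = ap E17 p * jacobiSym m p := by
  have : Fact p.Prime := ⟨hp⟩
  rw [ap_Em_sum hp2]
  by_cases hd : (p : ℤ) ∣ m
  · have h0 : jacobiSym m p = 0 := by
      rw [jacobiSym.eq_zero_iff]
      refine ⟨hp.ne_zero, ?_⟩
      have h1 : Int.gcd m p = p := by
        show Nat.gcd m.natAbs (p : ℤ).natAbs = p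
        rw [Int.natAbs_natCast]
        exact Nat.gcd_eq_right (Int.natCast_dvd.1 hd)
      rw [h1]
      exact hp.one_lt.ne'
    rw [sum_dvd hp2 hd, h0]
    ring
  · rw [sum_ndvd hp2 hd]

open Pool.Agent.N969.P15 (Ev chE) in
open Pool.Agent.N975.ChE in
/-- the coefficients of the twist by `-n`, `n = 4 m`, in terms of the character -/
theorem ap_En {n : ℕ} (hE : Ev n) (p : ℕ) (hp : p.Prime) :
    ap (Em (-((n / 4 : ℕ) : ℤ))) p = ap E17 p * chE n p := by
  have hn := ev_mod hE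
  by_cases hp2 : p = 2
  · subst hp2
    rw [ap_Em_two, chE_zero hn (by
      intro h
      have h2 : 2 ∣ n := by omega
      have := Nat.eq_one_of_dvd_coprimes h dvd_rfl h2
      norm_num at this), mul_zero]
  · rw [ap_Em p hp hp2, chE_prime hE hp hp2]

open Pool.Agent.N974.Gen.ChP in
/-- the coefficients of the twist by `n`, `n = 4 m`, in terms of the character -/
theorem ap_Ep {n : ℕ} (hE : Pool.Agent.N974.Gen.ChP.Ev n) (p : ℕ) (hp : p.Prime) :
    ap (Em ((n / 4 : ℕ) : ℤ)) p = ap E17 p * Pool.Agent.N974.Gen.ChP.chE n p := by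
  have hn := ev_mod hE
  by_cases hp2 : p = 2
  · subst hp2
    rw [ap_Em_two, Pool.Agent.N974.Gen.ChP.chE_zero hn (by
      intro h
      have h2 : 2 ∣ n := by omega
      have := Nat.eq_one_of_dvd_coprimes h dvd_rfl h2
      norm_num at this), mul_zero]
  · rw [ap_Em p hp hp2, Pool.Agent.N974.Gen.ChP.chE_prime hE hp hp2]

end Pool.Agent.N871.S17
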