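import Pool.Agent.N974.PG.EvenS
import Pool.Agent.N975.S17.Fin

/-!
# Level `17`: the character sums of the symbols vanish for the root number `-1`
-/

set_option autoImplicit false
set_option linter.style.haveILetI false

open Finset UpperHalfPlane MatrixGroups CongruenceSubgroup

namespace Pool.Agent.N871.S17

open Pool.Agent.N974.Gen
open Pool.Agent.N974.PG (SymbE EvenHom)
open Pool.Agent.N975.S17 (Symb17 OddHom d_ne sum_unZ)
open Pool.Agent.N969.P15 (un)

section sym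

variable {R : Type*} [CommRing R] {s : ℚ → R} {e : R}

/-- the behaviour of the symbol under `Γ₀(17)` -/
def Aff (s : ℚ → R) (e : R) : Prop := ∀ A B C D : ℤ, A * D - B * (17 * C) = 1 → ∀ r : ℚ,
  (17 : ℚ) * C * r + D ≠ 0 →
    s ((A * r + B) / ((17 : ℚ) * C * r + D)) = s r + s ((B : ℚ) / D) - e

theorem aff_odd (H : Symb17 s) : Aff s 0 := by
  intro A B C D h r hr
  rw [sub_zero]
  exact H.aff h r hr

theorem aff_even (H : SymbE s) : Aff s (s 0) := fun _ _ _ _ h r hr => H.aff h r hr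

section hom

variable {a b c d a' b' c' d' : ℤ}

theorem D_ne (h : a * d - 17 * (b * c) = 1) (h' : a' * d' - 17 * (b' * c') = 1) :
    17 * c * b' + d * d' ≠ 0 :=
  d_ne (a := a * a' + b * (17 * c')) (b := a * b' + b * d') (c := c * a' + d * c')
    (by linear_combination h' + (a' * d' - 17 * (b' * c')) * h)

theorem aff_bd (H : Aff s e) (h : a * d - 17 * (b * c) = 1) (h' : a' * d' - 17 * (b' * c') = 1) :
    s (((a * b' + b * d' : ℤ) : ℚ) / ((17 * c * b' + d * d' : ℤ) : ℚ)) =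
      s ((b : ℚ) / d) + s ((b' : ℚ) / d') - e := by
  have hdq : (d : ℚ) ≠ 0 := by exact_mod_cast d_ne h
  have hdq' : (d' : ℚ) ≠ 0 := by exact_mod_cast d_ne h'
  have hDq : (17 : ℚ) * c * b' + d * d' ≠ 0 := by exact_mod_cast D_ne h h'
  have h0 : (17 : ℚ) * c * ((b' : ℚ) / d') + d ≠ 0 := by
    intro h1
    apply hDq
    field_simp at h1
    linear_combination h1
  have h1 := H a b c d (by linear_combination h) ((b' : ℚ) / d') h0
  have e1 : ((a : ℚ) * ((b' : ℚ) / d') + b) / ((17 : ℚ) * c * ((b' : ℚ) / d') + d) =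
      ((a * b' + b * d' : ℤ) : ℚ) / ((17 * c * b' + d * d' : ℤ) : ℚ) := by
    push_cast
    rw [div_eq_div_iff h0 hDq]
    field_simp
  rw [e1] at h1
  rw [h1]
  ring

theorem aff_cd (H : Aff s e) (h : a * d - 17 * (b * c) = 1) (h' : a' * d' - 17 * (b' * c') = 1) :
    s (((c * a' + d * c' : ℤ) : ℚ) / ((17 * c * b' + d * d' : ℤ) : ℚ)) =
      s ((c : ℚ) / d) + s ((c' : ℚ) / d') - e := by
  have hdq : (d : ℚ) ≠ 0 := by exact_mod_cast d_ne h
  have hdq' : (d' : ℚ) ≠ 0 := by exact_mod_cast d_ne h'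
  have hDq : (17 : ℚ) * c * b' + d * d' ≠ 0 := by exact_mod_cast D_ne h h'
  have h0 : (17 : ℚ) * b' * ((c : ℚ) / d) + d' ≠ 0 := by
    intro h1
    apply hDq
    field_simp at h1
    linear_combination h1
  have h1 := H a' c' b' d' (by linear_combination h') ((c : ℚ) / d) h0
  have e1 : ((a' : ℚ) * ((c : ℚ) / d) + c') / ((17 : ℚ) * b' * ((c : ℚ) / d) + d') =
      ((c * a' + d * c' : ℤ) : ℚ) / ((17 * c * b' + d * d' : ℤ) : ℚ) := by
    push_cast
    rw [div_eq_div_iff h0 hDq]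
    field_simp
  rw [e1] at h1
  exact h1

/-- the symbol at the inverse matrix -/
theorem aff_inv (H : Aff s (s 0)) (h : a * d - 17 * (b * c) = 1) :
    s (-(b : ℚ) / a) = 2 * s 0 - s ((b : ℚ) / d) := by
  have h' : d * a - 17 * (-b * -c) = 1 := by linear_combination h
  have h1 := aff_bd H h h'
  have e1 : (a * -b + b * a : ℤ) = 0 := by ring
  rw [e1] at h1
  push_cast at h1
  rw [zero_div] at h1
  linear_combination -h1

end hom

variable [NoZeroSMulDivisors ℤ R]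

/-- **the symmetry of the odd symbol** -/
theorem sw_odd (H : Symb17 s) {a b c d : ℤ} (h : a * d - 17 * (b * c) = 1) :
    s ((b : ℚ) / d) = s ((c : ℚ) / d) := by
  have hA := aff_odd H
  have E : OddHom (fun _ b c d : ℤ => s ((b : ℚ) / d) - s ((c : ℚ) / d)) := by
    refine ⟨?_, ?_, ?_, ?_, ?_, ?_⟩
    · intro a b c d a' b' c' d' h h'
      rw [aff_bd hA h h', aff_cd hA h h']
      ring
    · intro a b c d _
      push_cast
      rw [neg_div_neg_eq, neg_div_neg_eq]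
    · intro a b c d _
      push_cast
      rw [neg_div, H.neg, neg_div, H.neg]
      ring
    · have h1 := H.per 0
      rw [zero_add] at h1
      norm_num
      rw [h1, sub_self]
    · have h1 := H.per 0
      rw [zero_add] at h1
      norm_num
      rw [h1, sub_self]
    · exact sub_self _
  exact sub_eq_zero.1 (E.zero d.natAbs a b c d h rfl)

/-- **the symmetry of the even symbol** -/
theorem sw_even (H : SymbE s) {a b c d : ℤ} (h : a * d - 17 * (b * c) = 1) :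
    s ((b : ℚ) / d) = s ((c : ℚ) / d) := by
  have hA := aff_even H
  have E : EvenHom (fun _ b c d : ℤ => s ((b : ℚ) / d) - s ((c : ℚ) / d)) := by
    refine ⟨?_, ?_, ?_, ?_⟩
    · intro a b c d a' b' c' d' h h'
      rw [aff_bd hA h h', aff_cd hA h h']
      ring
    · intro a b c d _
      push_cast
      rw [neg_div_neg_eq, neg_div_neg_eq]
    · intro a b c d _
      push_cast
      rw [neg_div, H.neg, neg_div, H.neg]
    · exact sub_self _
  exact sub_eq_zero.1 (E.zero d.natAbs a b c d h rfl)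

/-- a sum which changes its sign under an involution of the units -/
theorem van_core {n : ℕ} [NeZero n] {σ : (ZMod n)ˣ → (ZMod n)ˣ} (hσ : Function.Involutive σ)
    (g : ℕ → R) (h : ∀ u : (ZMod n)ˣ, g ((σ u : (ZMod n)ˣ) : ZMod n).val = -g (u : ZMod n).val) :
    ∑ u ∈ un n, g u = 0 := by
  rw [sum_unZ]
  refine OddHom.two_zero ?_
  have h1 : ∑ u : (ZMod n)ˣ, g ((σ u : (ZMod n)ˣ) : ZMod n).val =
      ∑ u : (ZMod n)ˣ, g (u : ZMod n).val :=
    Equiv.sum_comp (hσ.toPerm σ) (fun u => g (u : ZMod n).val)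
  rw [← Finset.sum_neg_distrib, ← h1]
  exact Finset.sum_congr rfl fun u _ => h u

/-- **vanishing, `17` prime to `n`** -/
theorem van {n : ℕ} [NeZero n] (h17 : Nat.Coprime 17 n) {χ : ℤ → ℤ} {ε : ℤ}
    (mul : ∀ a b, χ (a * b) = χ a * χ b) (per : ∀ a b, (n : ℤ) ∣ a - b → χ a = χ b)
    (pm : ∀ u : ℕ, Nat.Coprime u n → χ u = 1 ∨ χ u = -1) (one : χ 1 = 1) (hε : χ 17 = ε)
    (hε' : ε = 1 ∨ ε = -1)
    (hs : ∀ u j : ℕ, (n : ℤ) ∣ 1 - 17 * (u * j) → s ((j : ℚ) / n) = -(ε : R) * s ((u : ℚ) / n)) :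
    ∑ u ∈ un n, (χ u : R) * s ((u : ℚ) / n) = 0 := by
  obtain ⟨t, ht⟩ : ∃ t : (ZMod n)ˣ, t = ZMod.unitOfCoprime 17 h17 := ⟨_, rfl⟩
  have htv : (t : ZMod n) = 17 := by
    rw [ht, ZMod.coe_unitOfCoprime]
    push_cast
    rfl
  refine van_core (n := n) (σ := fun u => (t * u)⁻¹) ?_ (fun u : ℕ => (χ u : R) * s ((u : ℚ) / n)) ?_
  · intro u
    simp
  · intro u
    obtain ⟨v, hv⟩ : ∃ v : (ZMod n)ˣ, v = (t * u)⁻¹ := ⟨_, rfl⟩
    rw [← hv]
    have hdv : (n : ℤ) ∣ 17 * ((((u : ZMod n).val : ℕ) : ℤ) * (((v : ZMod n).val : ℕ) : ℤ)) - 1 := by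
      rw [← ZMod.intCast_zmod_eq_zero_iff_dvd]
      push_cast
      rw [ZMod.natCast_zmod_val, ZMod.natCast_zmod_val]
      have h7 : ((t * u : (ZMod n)ˣ) : ZMod n) * (v : ZMod n) = 1 := by
        rw [hv]; exact Units.mul_inv _
      rw [Units.val_mul, htv] at h7
      linear_combination h7
    have h1 := per _ _ hdv
    rw [mul, mul, hε, one] at h1
    have h2 := pm _ (ZMod.val_coe_unit_coprime u)
    have h3 := pm _ (ZMod.val_coe_unit_coprime v)
    have h4 := hs (u : ZMod n).val (v : ZMod n).val (by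
      obtain ⟨k, hk⟩ := hdv
      exact ⟨-k, by linear_combination -hk⟩)
    show ((χ (((v : ZMod n).val : ℕ) : ℤ) : ℤ) : R) * s ((((v : ZMod n).val : ℕ) : ℚ) / n) =
      -(((χ (((u : ZMod n).val : ℕ) : ℤ) : ℤ) : R) * s ((((u : ZMod n).val : ℕ) : ℚ) / n))
    rw [h4]
    have h5 : χ (((v : ZMod n).val : ℕ) : ℤ) * ε = χ (((u : ZMod n).val : ℕ) : ℤ) := by
      rcases h2 with h2 | h2 <;> rcases h3 with h3 | h3 <;> rcases hε' with h6 | h6 <;>
        rw [h2, h3, h6] at h1 <;> rw [h2, h3, h6] <;> omega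
    have h6 : ((χ (((u : ZMod n).val : ℕ) : ℤ) : ℤ) : R) =
        ((χ (((v : ZMod n).val : ℕ) : ℤ) : ℤ) : R) * (ε : R) := by
      rw [← h5]
      push_cast
      rfl
    rw [h6]
    ring

/-- **vanishing, `17` divides `n`** -/
theorem van17 {n : ℕ} [NeZero n] {χ : ℤ → ℤ}
    (mul : ∀ a b, χ (a * b) = χ a * χ b) (per : ∀ a b, (n : ℤ) ∣ a - b → χ a = χ b)
    (pm : ∀ u : ℕ, Nat.Coprime u n → χ u = 1 ∨ χ u = -1) (one : χ 1 = 1)
    (hs : ∀ u j : ℕ, (n : ℤ) ∣ 1 - u * j → s ((j : ℚ) / n) = -s ((u : ℚ) / n)) :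
    ∑ u ∈ un n, (χ u : R) * s ((u : ℚ) / n) = 0 := by
  refine van_core (n := n) (σ := fun u => u⁻¹) ?_ (fun u : ℕ => (χ u : R) * s ((u : ℚ) / n)) ?_
  · intro u
    simp
  · intro u
    obtain ⟨v, hv⟩ : ∃ v : (ZMod n)ˣ, v = u⁻¹ := ⟨_, rfl⟩
    rw [← hv]
    have hdv : (n : ℤ) ∣ (((u : ZMod n).val : ℕ) : ℤ) * (((v : ZMod n).val : ℕ) : ℤ) - 1 := by
      rw [← ZMod.intCast_zmod_eq_zero_iff_dvd]
      push_cast
      rw [ZMod.natCast_zmod_val, ZMod.natCast_zmod_val]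
      have h7 : (u : ZMod n) * (v : ZMod n) = 1 := by
        rw [hv]; exact Units.mul_inv _
      linear_combination h7
    have h1 := per _ _ hdv
    rw [mul, one] at h1
    have h2 := pm _ (ZMod.val_coe_unit_coprime u)
    have h3 := pm _ (ZMod.val_coe_unit_coprime v)
    have h4 := hs (u : ZMod n).val (v : ZMod n).val (by
      obtain ⟨k, hk⟩ := hdv
      exact ⟨-k, by linear_combination -hk⟩)
    show ((χ (((v : ZMod n).val : ℕ) : ℤ) : ℤ) : R) * s ((((v : ZMod n).val : ℕ) : ℚ) / n) =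
      -(((χ (((u : ZMod n).val : ℕ) : ℤ) : ℤ) : R) * s ((((u : ZMod n).val : ℕ) : ℚ) / n))
    rw [h4]
    have h5 : χ (((v : ZMod n).val : ℕ) : ℤ) = χ (((u : ZMod n).val : ℕ) : ℤ) := by
      rcases h2 with h2 | h2 <;> rcases h3 with h3 | h3 <;>
        rw [h2, h3] at h1 <;> rw [h2, h3] <;> omega
    rw [h5]
    ring

/-- the odd symbol, `17` split in the imaginary quadratic field -/
theorem van_odd (H : Symb17 s) {n : ℕ} [NeZero n] (h17 : Nat.Coprime 17 n) {χ : ℤ → ℤ}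
    (mul : ∀ a b, χ (a * b) = χ a * χ b) (per : ∀ a b, (n : ℤ) ∣ a - b → χ a = χ b)
    (pm : ∀ u : ℕ, Nat.Coprime u n → χ u = 1 ∨ χ u = -1) (one : χ 1 = 1) (hε : χ 17 = 1) :
    ∑ u ∈ un n, (χ u : R) * s ((u : ℚ) / n) = 0 := by
  refine van h17 mul per pm one hε (Or.inl rfl) fun u j ⟨a, ha⟩ => ?_
  have h1 := sw_odd H (a := a) (b := (u : ℤ)) (c := -(j : ℤ)) (d := (n : ℤ))
    (by linear_combination -ha)
  push_cast at h1 ⊢
  rw [neg_div, H.neg] at h1
  rw [h1]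
  ring

/-- the even symbol, `17` inert in the real quadratic field -/
theorem van_even (H : SymbE s) {n : ℕ} [NeZero n] (h17 : Nat.Coprime 17 n) {χ : ℤ → ℤ}
    (mul : ∀ a b, χ (a * b) = χ a * χ b) (per : ∀ a b, (n : ℤ) ∣ a - b → χ a = χ b)
    (pm : ∀ u : ℕ, Nat.Coprime u n → χ u = 1 ∨ χ u = -1) (one : χ 1 = 1) (hε : χ 17 = -1) :
    ∑ u ∈ un n, (χ u : R) * s ((u : ℚ) / n) = 0 := by
  refine van h17 mul per pm one hε (Or.inr rfl) fun u j ⟨a, ha⟩ => ?_
  have h1 := sw_even H (a := a) (b := (u : ℤ)) (c := -(j : ℤ)) (d := (n : ℤ))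
    (by linear_combination -ha)
  push_cast at h1 ⊢
  rw [neg_div, H.neg] at h1
  rw [h1]
  ring

/-- the even symbol, `17` ramified in the real quadratic field -/
theorem van_even17 (H : SymbE s)
    (hinf : ∀ A B C D : ℤ, A * D - B * (17 * C) = 1 → C ≠ 0 →
      s ((A : ℚ) / ((17 : ℚ) * C)) = s ((B : ℚ) / D) - s 0)
    {n : ℕ} [NeZero n] (h17 : 17 ∣ n) {χ : ℤ → ℤ}
    (mul : ∀ a b, χ (a * b) = χ a * χ b) (per : ∀ a b, (n : ℤ) ∣ a - b → χ a = χ b)
    (pm : ∀ u : ℕ, Nat.Coprime u n → χ u = 1 ∨ χ u = -1) (one : χ 1 = 1) :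
    ∑ u ∈ un n, (χ u : R) * s ((u : ℚ) / n) = 0 := by
  refine van17 mul per pm one fun u j ⟨a, ha⟩ => ?_
  obtain ⟨c, rfl⟩ := h17
  have hc0 : (c : ℤ) ≠ 0 := by
    have := NeZero.ne (17 * c)
    intro h
    apply this
    have : c = 0 := by exact_mod_cast h
    rw [this, mul_zero]
  push_cast at ha
  have h1 := hinf (u : ℤ) (-a) (c : ℤ) (j : ℤ) (by linear_combination -ha) hc0
  have h2 := hinf (j : ℤ) (-a) (c : ℤ) (u : ℤ) (by linear_combination -ha) hc0
  have h3 := aff_inv (aff_even H) (a := (u : ℤ)) (b := -a) (c := (c : ℤ)) (d := (j : ℤ))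
    (by linear_combination -ha)
  push_cast at h1 h2 h3 ⊢
  have h4 : s (-(a : ℚ) / u) = s ((a : ℚ) / u) := by rw [neg_div, H.neg]
  rw [neg_neg] at h3
  rw [h1, h2, h4, h3]
  ring

end sym

end Pool.Agent.N871.S17
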