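import Pool.Agent.N871.S17.Inv
import Pool.Agent.N875.P17.Crit
import Pool.Agent.N809.P17.Pty
import Pool.Agent.N916.MO.Hg
import Pool.Agent.N855.P17.Fin

/-!
# Level `17`: finiteness and `Ш[2] = 0` for all the quadratic twists
-/

set_option autoImplicit false

namespace Pool.Agent.N871.S17

open Pool.Agent.N875.P17 (Em EQm WS Sg fin2_iff fin2S_iff crit_Cm crit_Cme crit_Cr crit_Cre crit_Cp
  crit_CpE FD mD_sqf)
open Pool.Agent.N875.X15 (Fin2)
open Pool.Agent.N972.P17 (Cm Cme Cr Cre Cp Cpe Sx Sr)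
open Pool.Agent.N969.P17G (CpE SxP)
open Pool.Agent.N969.P15 (Ev)
open Pool.Agent.N916.MO (Kn G17 C17 G_neg G_pos Kn_odd Kn_ev)
open Pool.Agent.N919.BS (Rt17)

theorem jneg (n : ℤ) : jacobiSym (-n) 17 = jacobiSym n 17 := by
  rw [jacobiSym.neg _ (by decide)]
  have : (ZMod.χ₄ ((17 : ℕ) : ZMod 4)) = 1 := by decide
  rw [this, one_mul]

theorem jfour (n : ℤ) : jacobiSym (4 * n) 17 = jacobiSym n 17 := by
  rw [jacobiSym.mul_left]
  have : jacobiSym 4 17 = 1 := by norm_num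
  rw [this, one_mul]

theorem jcases {n : ℕ} (h : jacobiSym n 17 ≠ 1) : 17 ∣ n ∨ jacobiSym n 17 = -1 := by
  by_cases h17 : 17 ∣ n
  · exact Or.inl h17
  · right
    have h4 : ((n : ℤ)).gcd (17 : ℕ) = 1 := by
      rw [Int.gcd_natCast_natCast]
      exact ((Nat.Prime.coprime_iff_not_dvd (by norm_num)).2 h17).symm
    exact (jacobiSym.eq_one_or_neg_one h4).resolve_left h

theorem ndvd {n : ℕ} {e : ℤ} (h : jacobiSym n 17 = e) (he : e ≠ 0) : ¬ 17 ∣ n :=
  Pool.Agent.N875.P17.nd17 h he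

theorem C17_dvd {n : ℕ} (h : 17 ∣ n) : C17 n ↔ Sr n :=
  ⟨fun h' => h'.2 h, fun h' => ⟨fun h'' => absurd h h'', fun _ => h'⟩⟩

theorem C17_ndvd {n : ℕ} (h : ¬ 17 ∣ n) : C17 n ↔ Sx n :=
  ⟨fun h' => h'.1 h, fun h' => ⟨fun _ => h', fun h'' => absurd h'' h⟩⟩

theorem sqf_neg' {n : ℕ} (hs : Squarefree n) : Squarefree (-(n : ℤ)) := by
  intro x hx
  rw [dvd_neg] at hx
  exact Int.squarefree_natCast.2 hs x hx

theorem sg_nO {n : ℕ} (hs : Squarefree n) (h4 : n % 4 = 3) (h17 : jacobiSym n 17 ≠ 1) :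
    Sg (-(n : ℤ)) ↔ C17 n := by
  rw [← fin2S_iff (sqf_neg' hs)]
  rcases jcases h17 with h | h
  · rw [C17_dvd h]
    exact crit_Cr ⟨hs, h4, h⟩
  · rw [C17_ndvd (ndvd h (by norm_num))]
    exact crit_Cm ⟨hs, h4, h⟩

theorem sqf_four {n : ℕ} (hE : Ev n) : Squarefree (n / 4) := by
  obtain ⟨k, rfl, hk, -⟩ := hE
  rwa [Nat.mul_div_cancel_left _ (by norm_num)]

theorem sg_nE {n : ℕ} (hE : Ev n) (h17 : jacobiSym n 17 ≠ 1) :
    Sg (-((n / 4 : ℕ) : ℤ)) ↔ C17 n := by
  rw [← fin2S_iff (sqf_neg' (sqf_four hE))]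
  rcases jcases h17 with h | h
  · rw [C17_dvd h]
    exact crit_Cre ⟨hE, h⟩
  · rw [C17_ndvd (ndvd h (by norm_num))]
    exact crit_Cme ⟨hE, h⟩

theorem sg_pO {n : ℕ} (h : Cp n) : Sg (n : ℤ) ↔ SxP n := by
  rw [← fin2S_iff (Int.squarefree_natCast.2 h.1), Pool.Agent.N855.P17.t_SxP n h]
  exact crit_Cp h

theorem sg_pE {n : ℕ} (h : CpE n) : Sg ((n / 4 : ℕ) : ℤ) ↔ SxP n := by
  rw [← fin2S_iff]
  · exact crit_CpE h
  · obtain ⟨k, rfl, hk, -⟩ := h
    rw [Nat.mul_div_cancel_left _ (by norm_num)]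
    exact Int.squarefree_natCast.2 hk

/-- **The criterion for all the quadratic twists.** -/
theorem good_iff {m : ℤ} (hs : Squarefree m) : Fin2 (EQm m) ↔ Rt17 m ∧ G17 m := by
  rw [fin2_iff hs]
  have h0 := hs.ne_zero
  have h4 : m % 4 ≠ 0 := by
    intro h
    have h1 := hs 2 ⟨m / 4, by omega⟩
    rw [Int.isUnit_iff] at h1
    omega
  have key : Rt17 m → (Sg m ↔ G17 m) := by
    intro hR
    by_cases h1 : m % 4 = 1
    · rcases lt_or_gt_of_ne h0 with hm | hm
      · obtain ⟨n, rfl⟩ : ∃ n : ℕ, m = -(n : ℤ) := ⟨m.natAbs, by omega⟩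
        have hn : Squarefree n := by
          exact Int.squarefree_natCast.1 fun x hx => hs x ((dvd_neg).2 hx)
        rw [G_neg hm (n := n) (by rw [Kn_odd h1]; omega)]
        refine sg_nO hn (by omega) ?_
        rcases hR with h | h
        · omega
        · rw [← jneg]
          exact h.2
      · obtain ⟨n, rfl⟩ : ∃ n : ℕ, m = (n : ℤ) := ⟨m.natAbs, by omega⟩
        have hn : Squarefree n := Int.squarefree_natCast.1 hs
        rw [G_pos hm (n := n) (by rw [Kn_odd h1]; omega)]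
        refine sg_pO ⟨hn, by omega, ?_⟩
        rcases hR with h | h
        · exact h.2
        · omega
    · rcases lt_or_gt_of_ne h0 with hm | hm
      · obtain ⟨k, rfl⟩ : ∃ k : ℕ, m = -(k : ℤ) := ⟨m.natAbs, by omega⟩
        have hk : Squarefree k := by
          exact Int.squarefree_natCast.1 fun x hx => hs x ((dvd_neg).2 hx)
        rw [G_neg hm (n := 4 * k) (by rw [Kn_ev h1]; omega)]
        have e : (4 * k) / 4 = k := by omega
        have h := sg_nE (n := 4 * k) ⟨k, rfl, hk, by omega⟩ (by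
          push_cast
          rw [jfour, ← jneg]
          rcases hR with h | h
          · omega
          · exact h.2)
        rwa [e] at h
      · obtain ⟨k, rfl⟩ : ∃ k : ℕ, m = (k : ℤ) := ⟨m.natAbs, by omega⟩
        have hk : Squarefree k := Int.squarefree_natCast.1 hs
        rw [G_pos hm (n := 4 * k) (by rw [Kn_ev h1]; omega)]
        have e : (4 * k) / 4 = k := by omega
        have h := sg_pE (n := 4 * k) ⟨k, rfl, hk, by omega, by
          rcases hR with h | h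
          · exact h.2
          · omega⟩
        rwa [e] at h
  constructor
  · intro hS
    have hR : Rt17 m := (Pool.Agent.N809.P17.sg_parity hs hS).symm
    exact ⟨hR, (key hR).1 hS⟩
  · rintro ⟨hR, hG⟩
    exact (key hR).2 hG

end Pool.Agent.N871.S17
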