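import Pool.Agent.N218.P17G.EvenF
import Pool.Agent.N844.P17G.Odd

/-!
# Level `17`, positive discriminants: the value `Gg A 1 1 3` is, up to the sign and a power of two, a
# square whose parity is given by the criterion
-/

set_option autoImplicit false

namespace Pool.Agent.N871.S17

open Pool.Agent.N972.P17
open Pool.Agent.N969.P17G
open Pool.Agent.N218.P17G (exists_aux Sx_prime)

theorem extract_sq {G yl y : ℤ} {k : ℕ} (hk : 1 ≤ k)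
    (h : 8 * (2 ^ (k - 1) * y) ^ 2 = -(G * (2 ^ 1 * yl) ^ 2)) (hyl : Odd yl) :
    ∃ t : ℤ, -(2 * G) = 4 ^ k * t ^ 2 ∧ (Odd t ↔ Odd y) := by
  obtain ⟨j, rfl⟩ : ∃ j, k = j + 1 := ⟨k - 1, by omega⟩
  rw [Nat.add_sub_cancel] at h
  have e4 : (4 : ℤ) ^ j = (2 ^ j) ^ 2 := by
    rw [← pow_mul, mul_comm, pow_mul]
    norm_num
  have h1 : -(2 * G) * yl ^ 2 = 4 ^ (j + 1) * y ^ 2 := by
    rw [pow_succ (4 : ℤ) j, e4]
    linarith
  have hcop : IsCoprime (yl ^ 2) ((4 : ℤ) ^ (j + 1)) := by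
    refine IsCoprime.pow ?_
    have h2 : IsCoprime yl 2 := by
      obtain ⟨r, hr⟩ := hyl
      exact ⟨1, -r, by rw [hr]; ring⟩
    have e : (4 : ℤ) = 2 * 2 := by norm_num
    rw [e]
    exact h2.mul_right h2
  have hd : yl ^ 2 ∣ y ^ 2 := hcop.dvd_of_dvd_mul_left ⟨-(2 * G), by linear_combination -h1⟩
  obtain ⟨t, rfl⟩ := (Int.pow_dvd_pow_iff two_ne_zero).1 hd
  have hyl0 : yl ^ 2 ≠ 0 := by
    refine pow_ne_zero 2 ?_
    rintro rfl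
    exact absurd hyl (by decide)
  refine ⟨t, ?_, ?_⟩
  · have h3 : yl ^ 2 * (-(2 * G) - 4 ^ (j + 1) * t ^ 2) = 0 := by linear_combination h1
    rcases mul_eq_zero.1 h3 with h4 | h4
    · exact absurd h4 hyl0
    · linarith
  · rw [Int.odd_mul]
    exact ⟨fun h => ⟨hyl, h⟩, fun h => h.2⟩

theorem cc_prime {l : ℕ} (hl : l.Prime) (h : Cm l) : ∃ y : ℤ, cc l = 2 ^ 1 * y ∧ Odd y := by
  obtain ⟨y, h1, h2⟩ := Pool.Agent.N218.P17G.s_PAR l h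
  rw [hl.primeFactors, Finset.card_singleton] at h1
  exact ⟨y, h1, h2.2 ((Pool.Agent.N816.P17.Crit.t_SxSc l h).1 (Sx_prime hl h))⟩

/-- **odd positive discriminants** -/
theorem gg_sq {A : ℕ} (hA : Cp A) (h1 : 1 < A) :
    ∃ t : ℤ, -(2 * Gg A 1 1 3) = 4 ^ A.primeFactors.card * t ^ 2 ∧ (Odd t ↔ Sx A) := by
  obtain ⟨l, hl, hlm, hlA⟩ := exists_aux A (by omega)
  obtain ⟨y, hy, hyS⟩ := Pool.Agent.N218.P17G.f_PARG A l hA h1 hl hlm hlA
  have hcop : Nat.Coprime A l := Nat.coprime_comm.1 ((Nat.Prime.coprime_iff_not_dvd hl).2 hlA)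
  have h2 := Pool.Agent.N844.P17G.kapg_odd (A := A) (m := l) ⟨hA, hlm, hcop⟩ h1
  obtain ⟨yl, h3, h4⟩ := cc_prime hl hlm
  rw [hy, h3] at h2
  have hk : 1 ≤ A.primeFactors.card := Finset.card_pos.2 (Nat.nonempty_primeFactors.2 h1)
  obtain ⟨t, h5, h6⟩ := extract_sq hk h2 h4
  exact ⟨t, h5, h6.trans hyS⟩

/-- **even positive discriminants** -/
theorem gge_sq {A : ℕ} (hA : CpE A) :
    ∃ t : ℤ, -(2 * GgE A 1 1 3) = 4 ^ A.primeFactors.card * t ^ 2 ∧ (Odd t ↔ SxP A) := by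
  have h1 : 1 < A := by
    have := Pool.Agent.N218.P17G.CpE_pos hA
    omega
  obtain ⟨l, hl, hlm, hlA⟩ := exists_aux A (by omega)
  obtain ⟨y, hy, hyS⟩ := Pool.Agent.N218.P17G.f_PARGE A l hA hl hlm hlA
  have hcop : Nat.Coprime A l := Nat.coprime_comm.1 ((Nat.Prime.coprime_iff_not_dvd hl).2 hlA)
  have h2 := Pool.Agent.N218.P17G.kapge_c Pool.Agent.N974.PG.t_EQG Pool.Agent.N218.P17G.s_GPE
    Pool.Agent.N973.P17G.t_SY A hA l ⟨Or.inl ⟨hA, hlm⟩, hcop⟩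
  obtain ⟨yl, h3, h4⟩ := cc_prime hl hlm
  rw [hy, h3] at h2
  have hk : 1 ≤ A.primeFactors.card := Finset.card_pos.2 (Nat.nonempty_primeFactors.2 h1)
  obtain ⟨t, h5, h6⟩ := extract_sq hk h2 h4
  exact ⟨t, h5, h6.trans hyS⟩

end Pool.Agent.N871.S17
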