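import Pool.Agent.N871.S17.Van
import Pool.Agent.N971.EX.Val17P

/-!
# Level `17`: the central values vanish for the root number `-1`
-/

set_option autoImplicit false
set_option linter.style.haveILetI false

open Finset UpperHalfPlane MatrixGroups CongruenceSubgroup ZMod

namespace Pool.Agent.N871.S17

open Pool.Agent.N974.Gen
open Pool.Agent.N974.PG (SymbE symbE_re)
open Pool.Agent.N975.S17 (symb17_of)
open Pool.Agent.N809.M17 (f17 eigen17)
open Pool.Agent.N971.EX (value17O value17E value17P gJ_one gauss_odd gauss_chP)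
open Pool.Agent.N969.P15 (un)
open Pool.Agent.W97.MT (ap)
open Pool.Agent.Y700 (IsL Omega)

theorem jac_mod {n : ℕ} {a b : ℤ} (h : (n : ℤ) ∣ a - b) : jacobiSym a n = jacobiSym b n := by
  have e : a % (n : ℤ) = b % n := (Int.modEq_iff_dvd.2 h).symm
  rw [jacobiSym.mod_left a n, jacobiSym.mod_left b n, e]

theorem cop17 {n : ℕ} (h : ¬ 17 ∣ n) : Nat.Coprime 17 n :=
  (Nat.Prime.coprime_iff_not_dvd (by norm_num)).2 h

theorem jac_17 {n : ℕ} (h : n % 2 = 1) : jacobiSym 17 n = jacobiSym n 17 := by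
  have h2 := jacobiSym.quadratic_reciprocity_one_mod_four (a := 17) (b := n) (by norm_num)
    (Nat.odd_iff.2 h)
  push_cast at h2
  exact h2

/-- the relations of the even symbol at the cusps with denominators divisible by `17` -/
theorem inf_re : ∀ A B C D : ℤ, A * D - B * (17 * C) = 1 → C ≠ 0 →
    (fun r => (II f17 r).re) ((A : ℚ) / ((17 : ℚ) * C)) =
      (fun r => (II f17 r).re) ((B : ℚ) / D) - (fun r => (II f17 r).re) 0 := by
  intro A B C D h hC
  have := (symbP eigen17 (by norm_num)).aff_inf (A := A) (B := B) (C := C) (D := D)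
    (by exact_mod_cast h) hC
  exact_mod_cast this

section odd

variable {n : ℕ} (hs : Squarefree n) (W : WeierstrassCurve ℤ)
  (hc4 : W.c₄ = 273 * (n : ℤ) ^ 2)
  (ha : ∀ p : ℕ, p.Prime → ap W p = ap E17 p * jacobiSym p n)
  (hΔ : ∀ p : ℕ, p.Prime → ((p : ℤ) ∣ W.Δ ↔ p ∣ 17 ∨ p ∣ n))
include hs hc4 ha hΔ

/-- negative odd discriminants, `17` split -/
theorem vanish_nO (h4 : n % 4 = 3) (h17 : jacobiSym n 17 = 1)
    (hc6 : W.c₆ = -(4455 * (n : ℤ) ^ 3)) :
    0 < Omega W ∧ ∃ f : ℂ → ℂ, IsL W f ∧ f 1 = 0 := by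
  have : NeZero n := ⟨by omega⟩
  have hn17 : ¬ 17 ∣ n := by
    intro h
    have : jacobiSym n 17 = 0 := by
      rw [jacobiSym.eq_zero_iff_not_coprime, Int.gcd_natCast_natCast]
      exact fun h3 => (Nat.Prime.coprime_iff_not_dvd (by norm_num)).1 (Nat.Coprime.symm h3) h
    rw [this] at h17
    norm_num at h17
  obtain ⟨h1, f, hf, hv⟩ := value17O hs h4 W hc4 hc6 ha hΔ 0 (by
    intro s a g _
    have h := van_odd (symb17_of g) (cop17 hn17) (χ := fun u => jacobiSym u n)
      (fun a b => jacobiSym.mul_left a b n) (fun _ _ h => jac_mod h)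
      (fun u hu => jacobiSym.eq_one_or_neg_one (by rw [Int.gcd_natCast_natCast]; exact hu))
      (jacobiSym.one_left n) (by rw [jac_17 (by omega), h17])
    simpa using h)
  refine ⟨h1, f, hf, ?_⟩
  push_cast at hv
  rw [zero_mul] at hv
  simpa using hv

/-- positive odd discriminants, `17` not split -/
theorem vanish_pO (h4 : n % 4 = 1) (h1n : 1 < n) (h17 : jacobiSym n 17 ≠ 1)
    (hc6 : W.c₆ = 4455 * (n : ℤ) ^ 3) :
    0 < Omega W ∧ ∃ f : ℂ → ℂ, IsL W f ∧ f 1 = 0 := by
  have hodd : Odd n := Nat.odd_iff.2 (by omega)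
  haveI : NeZero n := ⟨by omega⟩
  set d : Pool.Agent.H491R3.J.OS := ⟨n, hodd, hs, by omega⟩ with hd
  have hchi : ∀ m : ℕ, H491R3.J.chi d (m : ZMod n) = ((jacobiSym (m : ℤ) n : ℤ) : ℂ) :=
    H491R3.J.chi_natCast d
  have jz : ∀ p : ℕ, p.Prime → (jacobiSym (p : ℤ) n = 0 ↔ p ∣ n) := by
    intro p hp
    rw [jacobiSym.eq_zero_iff_not_coprime, Int.gcd_natCast_natCast]
    have h9 : Nat.gcd p n = 1 ↔ ¬ p ∣ n := Nat.Prime.coprime_iff_not_dvd hp
    rw [ne_eq, h9, not_not]
  have hsum : ∑ u ∈ un n, (jacobiSym u n : ℝ) * (II f17 ((u : ℚ) / n)).re =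
      ((II f17 (1 / 3)).re - (II f17 0).re) * ((0 : ℤ) : ℝ) := by
    rw [Int.cast_zero, mul_zero]
    by_cases h : 17 ∣ n
    · exact van_even17 (symbE_re eigen17) inf_re h (χ := fun u => jacobiSym u n)
        (fun a b => jacobiSym.mul_left a b n) (fun _ _ h => jac_mod h)
        (fun u hu => jacobiSym.eq_one_or_neg_one (by rw [Int.gcd_natCast_natCast]; exact hu))
        (jacobiSym.one_left n)
    · exact van_even (symbE_re eigen17) (cop17 h) (χ := fun u => jacobiSym u n)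
        (fun a b => jacobiSym.mul_left a b n) (fun _ _ h => jac_mod h)
        (fun u hu => jacobiSym.eq_one_or_neg_one (by rw [Int.gcd_natCast_natCast]; exact hu))
        (jacobiSym.one_left n) (by
          rw [jac_17 (by omega)]
          have h4 : ((n : ℤ)).gcd (17 : ℕ) = 1 := by
            rw [Int.gcd_natCast_natCast]; exact (cop17 h).symm
          exact (jacobiSym.eq_one_or_neg_one h4).resolve_left h17)
  obtain ⟨h1, f, hf, hv⟩ := value17P h1n W hc4 hc6 (H491R3.J.chi d) (H491R3.J.chi_primitive d)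
    (H491R3.J.chi_inv d) (by
      have h9 := H491R3.J.chi_neg_one d
      have h10 : d.1 % 4 = 1 := h4
      rw [h9, if_pos h10]) (by rw [gauss_odd (H491R3.J.chi d) hchi, gJ_one hs h4])
    (fun u => jacobiSym u n) hchi (by
      intro p hp
      by_cases hpn : p ∣ n
      · exact Or.inl ((jz p hp).2 hpn)
      · right
        refine jacobiSym.eq_one_or_neg_one ?_
        rw [Int.gcd_natCast_natCast]
        exact (Nat.Prime.coprime_iff_not_dvd hp).2 hpn) ha (by
      intro p hp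
      rw [hΔ p hp]
      have := jz p hp
      tauto) 0 hsum
  refine ⟨h1, f, hf, ?_⟩
  push_cast at hv
  simpa using hv

end odd

section evenneg

open Pool.Agent.N969.P15 (Ev chE)
open Pool.Agent.N975.ChE

/-- negative even discriminants, `17` split -/
theorem vanish_nE {n : ℕ} (hE : Ev n) (W : WeierstrassCurve ℤ)
    (hc4 : W.c₄ = 273 * (n : ℤ) ^ 2) (hc6 : W.c₆ = -(4455 * (n : ℤ) ^ 3))
    (ha : ∀ p : ℕ, p.Prime → ap W p = ap E17 p * chE n p)
    (hΔ : ∀ p : ℕ, p.Prime → ((p : ℤ) ∣ W.Δ ↔ p ∣ 17 ∨ p ∣ n))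
    (h17 : jacobiSym ((n / 4 : ℕ) : ℤ) 17 = 1) :
    0 < Omega W ∧ ∃ f : ℂ → ℂ, IsL W f ∧ f 1 = 0 := by
  have hm := ev_mod hE
  have hn0 := ev_pos hE
  haveI : NeZero n := ⟨by omega⟩
  have h17' : chE n 17 = 1 := by
    have h := chE_prime hE (p := 17) (by norm_num) (by norm_num)
    push_cast at h
    rw [h, jacobiSym.neg _ (by decide)]
    have : (ZMod.χ₄ ((17 : ℕ) : ZMod 4)) = 1 := by decide
    rw [this, one_mul]
    exact_mod_cast h17
  have hn17 : ¬ 17 ∣ n := by
    intro h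
    have h2 := chE_zero hm (u := 17) (by
      rw [Nat.Prime.coprime_iff_not_dvd (by norm_num)]
      exact fun h3 => h3 h)
    push_cast at h2
    rw [h2] at h17'
    norm_num at h17'
  obtain ⟨h1, f, hf, hv⟩ := value17E hE W hc4 hc6 ha hΔ 0 (by
    intro s a g _
    have h := van_odd (symb17_of g) (cop17 hn17) (χ := fun u => chE n u)
      (chE_mul n) (fun _ _ h => chE_mod hm h) (fun u hu => chE_pm hm hu) (chE_one n) h17'
    simpa using h)
  refine ⟨h1, f, hf, ?_⟩
  push_cast at hv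
  rw [zero_mul] at hv
  simpa using hv

end evenneg

section evenpos

open Pool.Agent.N974.Gen.ChP

/-- positive even discriminants, `17` not split -/
theorem vanish_pE {n : ℕ} (hE : Pool.Agent.N974.Gen.ChP.Ev n) (W : WeierstrassCurve ℤ)
    (hc4 : W.c₄ = 273 * (n : ℤ) ^ 2) (hc6 : W.c₆ = 4455 * (n : ℤ) ^ 3)
    (ha : ∀ p : ℕ, p.Prime → ap W p = ap E17 p * Pool.Agent.N974.Gen.ChP.chE n p)
    (hΔ : ∀ p : ℕ, p.Prime → ((p : ℤ) ∣ W.Δ ↔ p ∣ 17 ∨ p ∣ n))
    (h17 : jacobiSym ((n / 4 : ℕ) : ℤ) 17 ≠ 1) :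
    0 < Omega W ∧ ∃ f : ℂ → ℂ, IsL W f ∧ f 1 = 0 := by
  have hm := ev_mod hE
  have hn0 := ev_pos hE
  haveI : NeZero n := ⟨by omega⟩
  have h17' := chE_prime hE (p := 17) (by norm_num) (by norm_num)
  push_cast at h17'
  have jz : ∀ p : ℕ, p.Prime → (Pool.Agent.N974.Gen.ChP.chE n p = 0 ↔ p ∣ n) := by
    intro p hp
    constructor
    · intro h0
      by_contra hcon
      rcases chE_pm hm ((Nat.Prime.coprime_iff_not_dvd hp).2 hcon) with h | h <;>
        rw [h] at h0 <;> norm_num at h0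
    · intro h0
      exact chE_zero hm fun h => hp.one_lt.ne' (Nat.eq_one_of_dvd_coprimes h dvd_rfl h0)
  have hsum : ∑ u ∈ un n, (Pool.Agent.N974.Gen.ChP.chE n u : ℝ) * (II f17 ((u : ℚ) / n)).re =
      ((II f17 (1 / 3)).re - (II f17 0).re) * ((0 : ℤ) : ℝ) := by
    rw [Int.cast_zero, mul_zero]
    by_cases h : 17 ∣ n
    · exact van_even17 (symbE_re eigen17) inf_re h (χ := fun u => Pool.Agent.N974.Gen.ChP.chE n u)
        (chE_mul n) (fun _ _ h => chE_mod hm h) (fun u hu => chE_pm hm hu) (chE_one n)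
    · exact van_even (symbE_re eigen17) (cop17 h)
        (χ := fun u => Pool.Agent.N974.Gen.ChP.chE n u)
        (chE_mul n) (fun _ _ h => chE_mod hm h) (fun u hu => chE_pm hm hu) (chE_one n) (by
          have h3 := chE_pm hm (u := 17) (cop17 h)
          push_cast at h3
          refine h3.resolve_left fun h4 => h17 ?_
          rw [h4] at h17'
          exact_mod_cast h17'.symm)
  obtain ⟨h1, f, hf, hv⟩ := value17P (by omega) W hc4 hc6 (chi n hm) (chi_primitive hE)
    (chi_inv n hm) (by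
      have h1 : ((n - 1 : ℕ) : ZMod n) = -1 := by
        rw [Nat.cast_sub (by omega), ZMod.natCast_self, Nat.cast_one, zero_sub]
      have h2 : Pool.Agent.N974.Gen.ChP.chE n ((n - 1 : ℕ) : ℤ) = 1 := by
        rw [chE_mod hm (u := ((n - 1 : ℕ) : ℤ)) (v := -1) ⟨1, by omega⟩]
        exact Pool.Agent.N974.PG.chE_neg_one hE
      rw [← h1, chi_nat, h2]
      norm_num) (by
      obtain ⟨m, rfl, hs, h5⟩ := id hE
      exact gauss_chP hs h5.symm (chi (4 * m) hm) fun k => by
        rw [chi_nat, Pool.Agent.N974.PG.chP_eq hE])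
    (fun u => Pool.Agent.N974.Gen.ChP.chE n u) (chi_nat n hm) (by
      intro p hp
      by_cases hpn : p ∣ n
      · exact Or.inl ((jz p hp).2 hpn)
      · exact Or.inr (chE_pm hm ((Nat.Prime.coprime_iff_not_dvd hp).2 hpn))) ha (by
      intro p hp
      rw [hΔ p hp]
      have := jz p hp
      tauto) 0 hsum
  refine ⟨h1, f, hf, ?_⟩
  push_cast at hv
  simpa using hv

end evenpos

end Pool.Agent.N871.S17
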