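import Pool.Agent.N871.S17.Ap
import Pool.Agent.N871.S17.Cls
import Pool.Agent.N871.S17.PosV
import Pool.Agent.N871.S17.VanV
import Pool.Agent.N972.P17.Par

/-!
# The 2-part of the formula for all the quadratic twists of `17a2`: assembly
-/

set_option autoImplicit false
set_option linter.style.haveILetI false

open Finset UpperHalfPlane MatrixGroups CongruenceSubgroup ZMod

namespace Pool.Agent.N871.S17

open Pool.Agent.N875.P17 (Em EQm WS Sg fin2_iff FD mD_sqf)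
open Pool.Agent.N875.X15 (Fin2)
open Pool.Agent.N972.P17
open Pool.Agent.N969.P17G (CpE SxP Gg GgE chP)
open Pool.Agent.N969.P15 (Ev chE un)
open Pool.Agent.N916.MO (Kn G17 C17 G_neg G_pos Kn_odd Kn_ev)
open Pool.Agent.N919.BS (Rt17)
open Pool.Agent.N971.EX (val_Cm val_Cr val_Cme val_Cre val_Cp val_CpE scale17P omega_pos exists_LG)
open Pool.Agent.N974.Gen
open Pool.Agent.N809.M17 (f17 eigen17)
open Pool.Agent.W97.MT (ap IsGloballyMinimal)
open Pool.Agent.Y700 (IsL Omega tamProd)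

/-- the absolute value of the discriminant of `ℚ(√m)` -/
def Kd (m : ℤ) : ℕ := if m % 4 = 1 then m.natAbs else 4 * m.natAbs

/-- the minimal equation of the twist by the squarefree integer `m` -/
def EE (m : ℤ) : WeierstrassCurve ℤ := if m % 4 = 1 then WN m else Em m

/-- the value of the L-function -/
def Vl (W : WeierstrassCurve ℤ) (n : ℕ) (S : Prop) : Prop :=
  0 < Omega W ∧ ∃ (f : ℂ → ℂ) (y : ℤ), IsL W f ∧ (Odd y ↔ S) ∧
    f 1 * 16 = (y : ℂ) ^ 2 * (((Omega W : ℝ) : ℂ) * ((4 ^ n.primeFactors.card * t17 n : ℕ) : ℂ))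

theorem Vl.congr {W : WeierstrassCurve ℤ} {n : ℕ} {S S' : Prop} (h : Vl W n S) (e : S ↔ S') :
    Vl W n S' := by
  rwa [← propext e]

section vl

variable {W : WeierstrassCurve ℤ} {n : ℕ} {S : Prop}

theorem t17_n (h : ¬ 17 ∣ n) : t17 n = 2 := if_neg h

theorem t17_d (h : 17 ∣ n) : t17 n = 1 := if_pos h

theorem four_pow (k : ℕ) : (4 : ℂ) ^ k = (2 ^ k) ^ 2 := by
  rw [← pow_mul, mul_comm, pow_mul]
  norm_num

theorem vl_cc (h17 : ¬ 17 ∣ n) (h : 0 < Omega W ∧ ∃ f : ℂ → ℂ, IsL W f ∧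
      8 * f 1 = ((cc n ^ 2 : ℤ) : ℂ) * ((Omega W : ℝ) : ℂ))
    (hP : ∃ y : ℤ, cc n = 2 ^ n.primeFactors.card * y ∧ (Odd y ↔ S)) : Vl W n S := by
  obtain ⟨h1, f, hf, hv⟩ := h
  obtain ⟨y, hy, hS⟩ := hP
  refine ⟨h1, f, y, hf, hS, ?_⟩
  rw [hy] at hv
  rw [t17_n h17]
  push_cast at hv ⊢
  rw [four_pow]
  linear_combination 2 * hv

theorem vl_ccr (h17 : 17 ∣ n) (hn : n ≠ 0) (h : 0 < Omega W ∧ ∃ f : ℂ → ℂ, IsL W f ∧
      8 * f 1 = ((2 * cc n ^ 2 : ℤ) : ℂ) * ((Omega W : ℝ) : ℂ))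
    (hP : ∃ y : ℤ, cc n = 2 ^ (n.primeFactors.card - 1) * y ∧ (Odd y ↔ S)) : Vl W n S := by
  obtain ⟨h1, f, hf, hv⟩ := h
  obtain ⟨y, hy, hS⟩ := hP
  refine ⟨h1, f, y, hf, hS, ?_⟩
  rw [hy] at hv
  rw [t17_d h17]
  have hk : 1 ≤ n.primeFactors.card := Finset.card_pos.2
    ⟨17, Nat.mem_primeFactors.2 ⟨by norm_num, h17, hn⟩⟩
  obtain ⟨j, hj⟩ : ∃ j, n.primeFactors.card = j + 1 := ⟨n.primeFactors.card - 1, by omega⟩
  rw [hj, Nat.add_sub_cancel] at hv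
  rw [hj]
  push_cast at hv ⊢
  rw [four_pow, pow_succ]
  linear_combination 2 * hv

theorem vl_gg {G : ℤ} (h17 : ¬ 17 ∣ n) (h : 0 < Omega W ∧ ∃ f : ℂ → ℂ, IsL W f ∧
      4 * f 1 = ((-G : ℤ) : ℂ) * ((Omega W : ℝ) : ℂ))
    (hP : ∃ t : ℤ, -(2 * G) = 4 ^ n.primeFactors.card * t ^ 2 ∧ (Odd t ↔ S)) : Vl W n S := by
  obtain ⟨h1, f, hf, hv⟩ := h
  obtain ⟨y, hy, hS⟩ := hP
  refine ⟨h1, f, y, hf, hS, ?_⟩
  have hy' := congrArg (Int.cast (R := ℂ)) hy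
  rw [t17_n h17]
  push_cast at hv hy' ⊢
  linear_combination 4 * hv + 2 * ((Omega W : ℝ) : ℂ) * hy'

theorem vl_zero (h : 0 < Omega W ∧ ∃ f : ℂ → ℂ, IsL W f ∧ f 1 = 0) (hS : ¬ S) : Vl W n S := by
  obtain ⟨h1, f, hf, hv⟩ := h
  refine ⟨h1, f, 0, hf, ⟨fun h => absurd h (by decide), fun h => absurd h hS⟩, ?_⟩
  rw [hv]
  push_cast
  ring

end vl

/-! ### the four classes -/

section cls

variable {n : ℕ}

theorem parity {m : ℤ} (hs : Squarefree m) (h : Sg m) : Rt17 m :=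
  (Pool.Agent.N809.P17.sg_parity hs h).symm

/-- odd negative discriminants -/
theorem vl_nO (hs : Squarefree n) (h4 : n % 4 = 3) : Vl (WN (-(n : ℤ))) n (Sg (-(n : ℤ))) := by
  have hm : (-(n : ℤ)) % 4 = 1 := by omega
  have hn0 : n ≠ 0 := hs.ne_zero
  have c4 : (WN (-(n : ℤ))).c₄ = 273 * (n : ℤ) ^ 2 := by rw [c4_WN hm]; ring
  have c6 : (WN (-(n : ℤ))).c₆ = -(4455 * (n : ℤ) ^ 3) := by rw [c6_WN hm]; ring
  have ha : ∀ p : ℕ, p.Prime → ap (WN (-(n : ℤ))) p = ap E17 p * jacobiSym p n := by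
    intro p hp
    rw [ap_WN hm p hp, Int.natAbs_neg, Int.natAbs_natCast]
  have hΔ : ∀ p : ℕ, p.Prime → ((p : ℤ) ∣ (WN (-(n : ℤ))).Δ ↔ p ∣ 17 ∨ p ∣ n) := by
    intro p hp
    rw [dvd_Δ (WN_Δ' hm) hp, Int.natAbs_neg, Int.natAbs_natCast]
  by_cases h17 : jacobiSym n 17 = 1
  · refine vl_zero (vanish_nO hs _ c4 ha hΔ h4 h17 c6) fun h => ?_
    rcases parity (sqf_neg' hs) h with ⟨h1, -⟩ | ⟨-, h1⟩
    · omega
    · rw [jneg] at h1
      exact h1 h17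
  · rw [sg_nO hs h4 h17]
    rcases jcases h17 with h | h
    · rw [C17_dvd h]
      exact vl_ccr h hn0 (val_Cr f_DIAGR ⟨hs, h4, h⟩ _ c4 c6 ha hΔ) (f_PARR n ⟨hs, h4, h⟩)
    · rw [C17_ndvd (ndvd h (by norm_num))]
      obtain ⟨y, hy, hS⟩ := f_PAR n ⟨hs, h4, h⟩
      exact vl_cc (ndvd h (by norm_num)) (val_Cm f_DIAG ⟨hs, h4, h⟩ _ c4 c6 ha hΔ)
        ⟨y, hy, hS.trans (f_SxSc n ⟨hs, h4, h⟩).symm⟩

/-- even negative discriminants -/
theorem vl_nE (hE : Ev n) : Vl (Em (-((n / 4 : ℕ) : ℤ))) n (Sg (-((n / 4 : ℕ) : ℤ))) := by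
  obtain ⟨k, hk⟩ : ∃ k, k = n / 4 := ⟨_, rfl⟩
  have hn : n = 4 * k := by
    obtain ⟨k', h, -⟩ := id hE
    omega
  have hks : Squarefree k := by rw [hk]; exact sqf_four hE
  have hk0 := hks.ne_zero
  have hn0 : n ≠ 0 := by omega
  have ha := ap_En hE
  rw [← hk] at ha ⊢
  have hnz : (n : ℤ) = 4 * (k : ℤ) := by rw [hn]; push_cast; rfl
  have c4 : (Em (-(k : ℤ))).c₄ = 273 * (n : ℤ) ^ 2 := by rw [c4_Em, hnz]; ring
  have c6 : (Em (-(k : ℤ))).c₆ = -(4455 * (n : ℤ) ^ 3) := by rw [c6_Em, hnz]; ring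
  have hΔ : ∀ p : ℕ, p.Prime → ((p : ℤ) ∣ (Em (-(k : ℤ))).Δ ↔ p ∣ 17 ∨ p ∣ n) := by
    intro p hp
    rw [dvd_Δ (Em_Δ' _) hp]
    have e : (4 * -(k : ℤ)).natAbs = n := by omega
    rw [e]
  have hj : jacobiSym n 17 = jacobiSym k 17 := by rw [hnz, jfour]
  by_cases h17 : jacobiSym n 17 = 1
  · refine vl_zero (vanish_nE hE _ c4 c6 ha hΔ (by rw [← hk, ← hj]; exact h17)) fun h => ?_
    rcases parity (sqf_neg' hks) h with ⟨h1, -⟩ | ⟨-, h1⟩
    · omega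
    · rw [jneg, ← hj] at h1
      exact h1 h17
  · have hsg := sg_nE hE h17
    rw [← hk] at hsg
    rw [hsg]
    rcases jcases h17 with h | h
    · rw [C17_dvd h]
      exact vl_ccr h hn0 (val_Cre f_DIAGRE ⟨hE, h⟩ _ c4 c6 ha hΔ) (f_PARRE n ⟨hE, h⟩)
    · rw [C17_ndvd (ndvd h (by norm_num))]
      exact vl_cc (ndvd h (by norm_num)) (val_Cme f_DIAGE ⟨hE, h⟩ _ c4 c6 ha hΔ)
        (f_PARE n ⟨hE, h⟩)

/-- odd positive discriminants -/
theorem vl_pO (hs : Squarefree n) (h4 : n % 4 = 1) (h1n : 1 < n) :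
    Vl (WN (n : ℤ)) n (Sg (n : ℤ)) := by
  have hm : (n : ℤ) % 4 = 1 := by omega
  have hn0 : n ≠ 0 := hs.ne_zero
  have c4 : (WN (n : ℤ)).c₄ = 273 * (n : ℤ) ^ 2 := c4_WN hm
  have c6 : (WN (n : ℤ)).c₆ = 4455 * (n : ℤ) ^ 3 := c6_WN hm
  have ha : ∀ p : ℕ, p.Prime → ap (WN (n : ℤ)) p = ap E17 p * jacobiSym p n := by
    intro p hp
    rw [ap_WN hm p hp, Int.natAbs_natCast]
  have hΔ : ∀ p : ℕ, p.Prime → ((p : ℤ) ∣ (WN (n : ℤ)).Δ ↔ p ∣ 17 ∨ p ∣ n) := by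
    intro p hp
    rw [dvd_Δ (WN_Δ' hm) hp, Int.natAbs_natCast]
  by_cases h17 : jacobiSym n 17 = 1
  · have hC : Cp n := ⟨hs, h4, h17⟩
    rw [sg_pO hC, Pool.Agent.N855.P17.t_SxP n hC]
    exact vl_gg (ndvd h17 one_ne_zero) (val_Cp hC h1n _ c4 c6 ha hΔ) (gg_sq hC h1n)
  · refine vl_zero (vanish_pO hs _ c4 ha hΔ h4 h1n h17 c6) fun h => ?_
    rcases parity (Int.squarefree_natCast.2 hs) h with ⟨-, h1⟩ | ⟨h1, -⟩
    · exact h17 h1
    · omega

/-- even positive discriminants -/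
theorem vl_pE (hE : Pool.Agent.N974.Gen.ChP.Ev n) :
    Vl (Em ((n / 4 : ℕ) : ℤ)) n (Sg ((n / 4 : ℕ) : ℤ)) := by
  obtain ⟨k, hk⟩ : ∃ k, k = n / 4 := ⟨_, rfl⟩
  obtain ⟨k', h', hks, h4⟩ := id hE
  have hkk : k' = k := by omega
  rw [hkk] at h' hks h4
  have hn : n = 4 * k := h'
  have hk0 := hks.ne_zero
  have hn0 : n ≠ 0 := by omega
  have ha := ap_Ep hE
  rw [← hk] at ha ⊢
  have hnz : (n : ℤ) = 4 * (k : ℤ) := by rw [hn]; push_cast; rfl
  have c4 : (Em (k : ℤ)).c₄ = 273 * (n : ℤ) ^ 2 := by rw [c4_Em, hnz]; ring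
  have c6 : (Em (k : ℤ)).c₆ = 4455 * (n : ℤ) ^ 3 := by rw [c6_Em, hnz]; ring
  have hΔ : ∀ p : ℕ, p.Prime → ((p : ℤ) ∣ (Em (k : ℤ)).Δ ↔ p ∣ 17 ∨ p ∣ n) := by
    intro p hp
    rw [dvd_Δ (Em_Δ' _) hp]
    have e : (4 * (k : ℤ)).natAbs = n := by omega
    rw [e]
  by_cases h17 : jacobiSym k 17 = 1
  · have hC : CpE n := ⟨k, hn, hks, by omega, h17⟩
    have hsg := sg_pE hC
    rw [← hk] at hsg
    rw [hsg]
    have hj : jacobiSym n 17 = 1 := by rw [hnz, jfour, h17]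
    refine vl_gg (ndvd hj one_ne_zero) (val_CpE hC _ c4 c6 (fun p hp => ?_) hΔ) (gge_sq hC)
    rw [ha p hp, Pool.Agent.N974.PG.chP_eq hE]
  · refine vl_zero (vanish_pE hE _ c4 c6 ha hΔ (by rw [← hk]; exact h17)) fun h => ?_
    rcases parity (Int.squarefree_natCast.2 hks) h with ⟨-, h1⟩ | ⟨h1, -⟩
    · exact h17 h1
    · omega

end cls

/-! ### the curve itself -/

theorem re_zero : ∃ Op : ℝ, 0 < Op ∧ (II f17 0) = ((Op / 4 : ℝ) : ℂ) ∧
    ∀ W : WeierstrassCurve ℤ, W.c₄ = 273 → W.c₆ = 4455 → Omega W = 2 * Op := by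
  obtain ⟨Λ, Op, Om, hOp, hOm, g2, g3, hL, hk⟩ := scale17P
  refine ⟨Op, hOp, ?_, ?_⟩
  · have P := symbP eigen17 (by norm_num : 1 < 17)
    have h3 := P.hecke 3 Nat.prime_three (by norm_num) 0
    simp only [ap17_3, Finset.sum_range_succ, Finset.sum_range_zero] at h3
    norm_num at h3
    have h4 : (II f17 (2 / 3)).re = (II f17 (1 / 3)).re := by
      have h5 := P.per (-(1 / 3))
      have h6 := P.neg (1 / 3)
      rw [h6] at h5
      rw [← h5]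
      norm_num
    rw [h4] at h3
    have h7 : (II f17 0).re = Op / 4 := by
      linarith
    apply Complex.ext
    · rw [h7, Complex.ofReal_re]
    · rw [II_zero_im f17 eigen17.real, Complex.ofReal_im]
  · intro W h4 h6
    have h := omega_pos Λ Op Om hOp hOm g2 g3 hL 1 one_pos W (by rw [h4]; norm_num)
      (by rw [h6]; norm_num)
    rw [h]
    norm_num

/-- **the curve itself** -/
theorem vl_one : Vl (WN 1) 1 (Sg 1) := by
  have h4 : (1 : ℤ) % 4 = 1 := by norm_num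
  obtain ⟨Op, hOp, h0, hΩ⟩ := re_zero
  have hΩ1 : Omega (WN 1) = 2 * Op := hΩ _ (by rw [c4_WN h4]; norm_num) (by rw [c6_WN h4]; norm_num)
  obtain ⟨f, hf, hv⟩ := exists_LG eigen17 (WN 1) (q := 1) (1 : DirichletCharacter ℂ 1)
    DirichletCharacter.isPrimitive_one_level_one inv_one (fun _ => 1) (fun u => by
      have : ((u : ℕ) : ZMod 1) = 1 := Subsingleton.elim _ _
      rw [this, map_one]
      norm_num) (fun _ _ => Or.inr (Or.inl rfl)) (fun p hp => by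
      rw [ap_WN h4 p hp]
      have : (1 : ℤ).natAbs = 1 := rfl
      rw [this, jacobiSym.one_right]) (fun p hp => by
      rw [dvd_Δ (WN_Δ' h4) hp]
      have : (1 : ℤ).natAbs = 1 := rfl
      rw [this, Nat.dvd_one]
      exact ⟨fun h => Or.inl (h.resolve_right hp.one_lt.ne'), fun h => Or.inl
        (h.resolve_right (by norm_num))⟩)
  have hG : gaussSum (1 : DirichletCharacter ℂ 1) (stdAddChar (N := 1)) = 1 := by
    unfold gaussSum
    have : (Finset.univ : Finset (ZMod 1)) = {1} := by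
      ext x
      simp only [Finset.mem_univ, Finset.mem_singleton, true_iff]
      exact Subsingleton.elim x 1
    rw [this, Finset.sum_singleton, map_one, one_mul]
    have : (1 : ZMod 1) = 0 := Subsingleton.elim _ _
    rw [this, AddChar.map_zero_eq_one]
  have hun : un 1 = {0} := by decide
  rw [hG, one_mul, hun, Finset.sum_singleton] at hv
  have hsg : Sg 1 := by
    rw [show (1 : ℤ) = ((1 : ℕ) : ℤ) from rfl, sg_pO ⟨squarefree_one, by norm_num, by simp⟩]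
    intro x y _ _ p hp
    simp at hp
  refine ⟨by rw [hΩ1]; positivity, f, 1, hf, ⟨fun _ => hsg, fun _ => by decide⟩, ?_⟩
  have e0 : ((0 : ℕ) : ℚ) / ((1 : ℕ) : ℚ) = 0 := by norm_num
  rw [e0, h0] at hv
  rw [hv, hΩ1, t17_n (by norm_num)]
  push_cast
  norm_num
  ring

/-! ### all squarefree integers -/

theorem mod4_ne {m : ℤ} (hs : Squarefree m) : m % 4 ≠ 0 := by
  intro h
  have h1 := hs 2 ⟨m / 4, by omega⟩
  rw [Int.isUnit_iff] at h1
  omega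

theorem vl_all {m : ℤ} (hs : Squarefree m) : Vl (EE m) (Kd m) (Sg m) := by
  have h0 := hs.ne_zero
  have h4 := mod4_ne hs
  unfold EE Kd
  by_cases h1 : m % 4 = 1
  · rw [if_pos h1, if_pos h1]
    rcases lt_or_gt_of_ne h0 with hm | hm
    · obtain ⟨n, rfl⟩ : ∃ n : ℕ, m = -(n : ℤ) := ⟨m.natAbs, by omega⟩
      have hn : Squarefree n :=
        Int.squarefree_natCast.1 fun x hx => hs x ((dvd_neg).2 hx)
      rw [Int.natAbs_neg, Int.natAbs_natCast]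
      exact vl_nO hn (by omega)
    · obtain ⟨n, rfl⟩ : ∃ n : ℕ, m = (n : ℤ) := ⟨m.natAbs, by omega⟩
      have hn : Squarefree n := Int.squarefree_natCast.1 hs
      rw [Int.natAbs_natCast]
      by_cases h1n : n = 1
      · subst h1n
        exact vl_one
      · exact vl_pO hn (by omega) (by omega)
  · rw [if_neg h1, if_neg h1]
    rcases lt_or_gt_of_ne h0 with hm | hm
    · obtain ⟨k, rfl⟩ : ∃ k : ℕ, m = -(k : ℤ) := ⟨m.natAbs, by omega⟩
      have hk : Squarefree k :=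
        Int.squarefree_natCast.1 fun x hx => hs x ((dvd_neg).2 hx)
      rw [Int.natAbs_neg, Int.natAbs_natCast]
      have e : (4 * k) / 4 = k := by omega
      have h := vl_nE (n := 4 * k) ⟨k, rfl, hk, by omega⟩
      rwa [e] at h
    · obtain ⟨k, rfl⟩ : ∃ k : ℕ, m = (k : ℤ) := ⟨m.natAbs, by omega⟩
      have hk : Squarefree k := Int.squarefree_natCast.1 hs
      rw [Int.natAbs_natCast]
      have e : (4 * k) / 4 = k := by omega
      have h := vl_pE (n := 4 * k) ⟨k, rfl, hk, by omega⟩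
      rwa [e] at h

theorem fin2_EE {m : ℤ} (hs : Squarefree m) :
    Fin2 ((EE m).map (Int.castRingHom ℚ)) ↔ Sg m := by
  rw [← fin2_iff hs]
  unfold EE
  split_ifs with h
  · exact fin2_N h
  · exact Iff.rfl

/-- **The 2-part of the formula for all the quadratic twists.** -/
theorem strong {m : ℤ} (hs : Squarefree m) :
    IsGloballyMinimal (EE m) ∧
    tamProd (EE m) = 4 ^ (Kd m).primeFactors.card * t17 (Kd m) ∧
    Nat.card (AddCommGroup.torsion ((EE m).map (Int.castRingHom ℚ)).toAffine.Point) = 4 ∧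
    0 < Omega (EE m) ∧
    ∃ (f : ℂ → ℂ) (y : ℤ), IsL (EE m) f ∧
      (Odd y ↔ Fin2 ((EE m).map (Int.castRingHom ℚ))) ∧
      f 1 * 16 = (y : ℂ) ^ 2 * (((Omega (EE m) : ℝ) : ℂ) *
        ((4 ^ (Kd m).primeFactors.card * t17 (Kd m) : ℕ) : ℂ)) := by
  obtain ⟨h1, f, y, hf, hy, hv⟩ := vl_all hs
  refine ⟨?_, ?_, ?_, h1, f, y, hf, hy.trans (fin2_EE hs).symm, hv⟩
  · unfold EE
    split_ifs with h
    · exact min_WN h hs
    · exact min_Em h hs
  · unfold EE Kd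
    split_ifs with h
    · exact tamProd_N h hs
    · exact tamProd_E h hs
  · by_cases h : m % 4 = 1
    · have e : EE m = WN m := if_pos h
      rw [e]
      exact tors_WN h hs
    · have e : EE m = Em m := if_neg h
      rw [e]
      exact tors_Em hs

/-- the criterion for the count -/
theorem good_EE {m : ℤ} (hs : Squarefree m) :
    Fin2 ((EE m).map (Int.castRingHom ℚ)) ↔ Rt17 m ∧ G17 m := by
  rw [fin2_EE hs, ← fin2_iff hs]
  exact good_iff hs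

end Pool.Agent.N871.S17
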