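import Pool.Agent.N871.S17.Min
import Pool.Agent.N871.S17.Tors
import Pool.Agent.N875.P17.Fin

/-!
# The twists of `17a2`: invariants, bad primes, torsion and `Ш[2]` of the minimal equations
-/

set_option autoImplicit false
set_option linter.style.haveILetI false

namespace Pool.Agent.N871.S17

open WeierstrassCurve
open Pool.Agent.N875.P17 (Em EQm WS)
open Pool.Agent.N875.X15 (Fin2 tors_congr)
open Pool.Agent.Y700 (VR)
open Pool.Agent.Z702 (S_TRN)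

variable {m : ℤ}

theorem c4_WN (h4 : m % 4 = 1) : (WN m).c₄ = 273 * m ^ 2 := by
  obtain ⟨k, rfl⟩ : ∃ k, m = 4 * k + 1 := ⟨m / 4, by omega⟩
  rw [WN_k]
  simp only [WeierstrassCurve.c₄, WeierstrassCurve.b₂, WeierstrassCurve.b₄]
  ring

theorem c6_WN (h4 : m % 4 = 1) : (WN m).c₆ = 4455 * m ^ 3 := by
  obtain ⟨k, rfl⟩ : ∃ k, m = 4 * k + 1 := ⟨m / 4, by omega⟩
  rw [WN_k]
  simp only [WeierstrassCurve.c₆, WeierstrassCurve.b₂, WeierstrassCurve.b₄, WeierstrassCurve.b₆]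
  ring

/-- the bad primes -/
theorem dvd_Δ {W : WeierstrassCurve ℤ} {N : ℤ} (h : W.Δ = 17 ^ 2 * N ^ 6) {p : ℕ} (hp : p.Prime) :
    (p : ℤ) ∣ W.Δ ↔ p ∣ 17 ∨ p ∣ N.natAbs := by
  have hp' : Prime (p : ℤ) := Nat.prime_iff_prime_int.1 hp
  rw [h, hp'.dvd_mul, hp'.dvd_pow_iff_dvd (by norm_num), hp'.dvd_pow_iff_dvd (by norm_num),
    Int.natCast_dvd, Int.natCast_dvd]
  rfl

theorem WN_Δ' (h4 : m % 4 = 1) : (WN m).Δ = 17 ^ 2 * m ^ 6 := WN_Δ h4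

theorem Em_Δ' (m : ℤ) : (Em m).Δ = 17 ^ 2 * (4 * m) ^ 6 := by
  rw [Em_Δ]
  ring

/-- the order of the torsion subgroup, minimal equation -/
theorem tors_WN (h4 : m % 4 = 1) (hs : Squarefree m) :
    Nat.card (AddCommGroup.torsion (WNQ m).toAffine.Point) = 4 := by
  rw [← tors_Em hs]
  exact tors_congr ((vr h4 ℚ).equiv (WN_Δ_ne h4 ℚ))

theorem trnN (h4 : m % 4 = 1) :
    (Finite (EQm m).toAffine.Point ↔ Finite (WNQ m).toAffine.Point) ∧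
    ((∀ x : Pool.Agent.TH841.SH.D.Sha (EQm m), x + x = 0 → x = 0) ↔
      ∀ x : Pool.Agent.TH841.SH.D.Sha (WNQ m), x + x = 0 → x = 0) := by
  have hT : S_TRN := Pool.Agent.Z932.Z702.t_TRN
  obtain ⟨h1, h2, -⟩ := hT _ _ _ _ _ _ (vr h4 ℚ) (WN_Δ_ne h4 ℚ)
  exact ⟨h1, h2⟩

theorem fin2_N (h4 : m % 4 = 1) : Fin2 (WNQ m) ↔ Fin2 (EQm m) :=
  and_congr (trnN h4).1.symm (trnN h4).2.symm

end Pool.Agent.N871.S17
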