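import Pool.Agent.N871.S17.Tam2
import Pool.Agent.Y809.BSD14.Tam1
import Pool.Agent.Y700.Fin

/-!
# The minimal equations of the twists of `17a2`, and their Tamagawa numbers

Adapted from the files of helper875 at level 15.
-/

set_option autoImplicit false
set_option linter.style.haveILetI false

namespace Pool.Agent.N871.S17

open WeierstrassCurve
open Pool.Agent.Y700 (PtP SingRed E0 tam tamProd VR)
open Pool.Agent.W97.MT (IsGloballyMinimal)
open Pool.Agent.N875.X15 (norm_two tam_VR)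
open Pool.Agent.N875.P17 (Em)

/-- The twist by `m = 1 mod 4`. -/
def WN (m : ℤ) : WeierstrassCurve ℤ := ⟨1, -((15 * m + 1) / 4), 0, -(m ^ 2), 0⟩

/-- the twist by `m` over `ℚ` -/
noncomputable abbrev WNQ (m : ℤ) : WeierstrassCurve ℚ := (WN m).map (Int.castRingHom ℚ)

theorem Em_Δ (m : ℤ) : (Em m).Δ = 2 ^ 12 * 17 ^ 2 * m ^ 6 := by
  simp only [Em, WeierstrassCurve.Δ, WeierstrassCurve.b₂, WeierstrassCurve.b₄,
    WeierstrassCurve.b₆, WeierstrassCurve.b₈]
  ring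

theorem WN_k (k : ℤ) : WN (4 * k + 1) = ⟨1, -(15 * k + 4), 0, -((4 * k + 1) ^ 2), 0⟩ := by
  unfold WN
  have h : (15 * (4 * k + 1) + 1) / 4 = 15 * k + 4 := by omega
  rw [h]

theorem WN_Δ {m : ℤ} (hm : m % 4 = 1) : (WN m).Δ = 17 ^ 2 * m ^ 6 := by
  obtain ⟨k, rfl⟩ : ∃ k, m = 4 * k + 1 := ⟨m / 4, by omega⟩
  rw [WN_k]
  simp only [WeierstrassCurve.Δ, WeierstrassCurve.b₂, WeierstrassCurve.b₄, WeierstrassCurve.b₆,
    WeierstrassCurve.b₈]
  ring

/-- the change of coordinates -/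
theorem vr {m : ℤ} (hm : m % 4 = 1) (F : Type) [Field F] [CharZero F] :
    VR ((Em m).map (Int.castRingHom F)) ((WN m).map (Int.castRingHom F)) 2 0 1 0 := by
  obtain ⟨k, rfl⟩ : ∃ k, m = 4 * k + 1 := ⟨m / 4, by omega⟩
  rw [WN_k]
  refine ⟨two_ne_zero, ?_, ?_, ?_, ?_, ?_⟩
  · simp [Em]
  · simp [Em]
    ring
  · simp [Em]
  · simp only [Em, map_a₄, map_a₁, map_a₂, map_a₃, eq_intCast]
    push_cast
    ring
  · simp [Em]

lemma prime_pow_dvd {q : ℕ} (hq : q.Prime) {m : ℤ} (hs : Squarefree m)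
    (h : ((q : ℤ)) ^ 12 ∣ 17 ^ 2 * m ^ 6) : False := by
  have : Fact q.Prime := ⟨hq⟩
  have hm0 : m ≠ 0 := hs.ne_zero
  have hne : ((17 : ℤ) ^ 2 * m ^ 6) ≠ 0 := mul_ne_zero (by norm_num) (pow_ne_zero _ hm0)
  have h1 : 12 ≤ padicValInt q (17 ^ 2 * m ^ 6) := by
    have := (padicValInt_dvd_iff (p := q) 12 (17 ^ 2 * m ^ 6)).1 h
    exact this.resolve_left hne
  have h2 : padicValInt q m ≤ 1 := by
    by_contra hcon
    push Not at hcon
    have h3 : (q : ℤ) ^ 2 ∣ m := (padicValInt_dvd_iff (p := q) 2 m).2 (Or.inr hcon)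
    rw [pow_two] at h3
    have h4 := hs _ h3
    exact hq.one_lt.ne' (Nat.isUnit_iff.1 (Int.ofNat_isUnit.1 h4))
  have hp : ∀ (a : ℤ) (_ : a ≠ 0) (n : ℕ), padicValInt q (a ^ n) = n * padicValInt q a := by
    intro a ha n
    induction n with
    | zero => simp
    | succ n ih => rw [pow_succ, padicValInt.mul (pow_ne_zero _ ha) ha, ih]; ring
  have e1 : padicValInt q (17 ^ 2 * m ^ 6) = 2 * padicValInt q 17 + 6 * padicValInt q m := by
    rw [padicValInt.mul (by norm_num) (pow_ne_zero _ hm0), hp 17 (by norm_num), hp m hm0]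
  have h3 : padicValInt q 17 ≤ 1 := by
    have e3 : padicValInt q 17 = padicValNat q 17 := by
      rw [show (17 : ℤ) = ((17 : ℕ) : ℤ) by norm_num, padicValInt.of_nat]
    rw [e3]
    by_cases h3 : q = 17
    · subst h3
      rw [padicValNat_self]
    · rw [padicValNat.eq_zero_of_not_dvd (n := 17) (fun h =>
        h3 ((Nat.prime_dvd_prime_iff_eq hq (by norm_num)).1 h))]
      norm_num
  omega

theorem min_WN {m : ℤ} (hm : m % 4 = 1) (hs : Squarefree m) : IsGloballyMinimal (WN m) := by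
  have hΔ := WN_Δ hm
  have hM0 : m ≠ 0 := hs.ne_zero
  refine ⟨?_, ?_⟩
  · rw [hΔ]
    exact mul_ne_zero (by norm_num) (pow_ne_zero _ hM0)
  · intro W' C h
    have h1 := congrArg WeierstrassCurve.Δ h
    rw [WeierstrassCurve.variableChange_Δ, WeierstrassCurve.map_Δ, WeierstrassCurve.map_Δ] at h1
    simp only [eq_intCast] at h1
    obtain ⟨q, hq⟩ : ∃ q : ℚ, q = ((C.u⁻¹ : ℚˣ) : ℚ) := ⟨_, rfl⟩
    rw [← hq] at h1
    have hq0 : q ≠ 0 := by rw [hq]; exact Units.ne_zero _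
    have h2 : (q.num : ℚ) ^ 12 * ((WN m).Δ : ℚ) = (W'.Δ : ℚ) * (q.den : ℚ) ^ 12 := by
      have hd : (q.den : ℚ) ≠ 0 := by exact_mod_cast q.den_ne_zero
      rw [← h1]
      have hnd : q * q.den = q.num := Rat.mul_den_eq_num q
      rw [← hnd]
      ring
    have h3 : q.num ^ 12 * (WN m).Δ = W'.Δ * (q.den : ℤ) ^ 12 := by exact_mod_cast h2
    have hcop : IsCoprime ((q.den : ℤ) ^ 12) (q.num ^ 12) := by
      refine IsCoprime.pow ?_
      rw [Int.isCoprime_iff_gcd_eq_one, Int.gcd_comm]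
      exact q.reduced
    have h4 : (q.den : ℤ) ^ 12 ∣ (WN m).Δ :=
      hcop.dvd_of_dvd_mul_left ⟨W'.Δ, by rw [h3]; ring⟩
    rw [hΔ] at h4
    have h8 : q.den = 1 := by
      by_contra hne
      obtain ⟨r, hr, hrd⟩ := Nat.exists_prime_and_dvd hne
      refine prime_pow_dvd hr hs (dvd_trans ?_ h4)
      exact pow_dvd_pow_of_dvd (by exact_mod_cast hrd) 12
    rw [h8] at h3
    have h9 : W'.Δ = q.num ^ 12 * (WN m).Δ := by rw [h3]; simp
    rw [h9, abs_mul]
    have h10 : 1 ≤ |q.num ^ 12| := by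
      apply Int.one_le_abs
      exact pow_ne_zero _ (Rat.num_ne_zero.2 hq0)
    nlinarith [abs_nonneg (WN m).Δ]

/-! ### Tamagawa numbers -/

section tam

variable {p : ℕ} [hp : Fact p.Prime] {m : ℤ}

lemma WN_Δ_ne (h4 : m % 4 = 1) (F : Type) [Field F] [CharZero F] :
    ((WN m).map (Int.castRingHom F)).Δ ≠ 0 := by
  rw [WeierstrassCurve.map_Δ, WN_Δ h4]
  simp only [eq_intCast]
  have : (17 ^ 2 * m ^ 6 : ℤ) ≠ 0 :=
    mul_ne_zero (by norm_num) (pow_ne_zero _ (by rintro rfl; norm_num at h4))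
  exact_mod_cast this

theorem tam_WN_odd (hp2 : p ≠ 2) (h4 : m % 4 = 1) : tam (WN m) p = tam (Em m) p := by
  symm
  refine tam_VR (vr h4 ℚ_[p]) (WN_Δ_ne h4 ℚ_[p]) (norm_two hp2) ?_ ?_ ?_
  · rw [norm_zero]; exact zero_le_one
  · rw [norm_one]
  · rw [norm_zero]; exact zero_le_one

theorem tam_WN_ram (h4 : m % 4 = 1) (hs : Squarefree m) (hpm : (p : ℤ) ∣ m) :
    tam (WN m) p = 4 := by
  have hp2 : p ≠ 2 := by
    rintro rfl
    omega
  rw [tam_WN_odd hp2 h4]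
  exact tam_ram hp2 hs hpm

theorem tam_WN_17 [Fact (Nat.Prime 17)] (h4 : m % 4 = 1) (h17 : ¬ (17 : ℤ) ∣ m) :
    tam (WN m) 17 = 2 := by
  rw [tam_WN_odd (by norm_num) h4]
  exact tam_17 h17

end tam

/-! ### minimality for `m ≢ 1 mod 4` -/

theorem c4_Em (m : ℤ) : (Em m).c₄ = 16 * (273 * m ^ 2) := by
  simp only [Em, WeierstrassCurve.c₄, WeierstrassCurve.b₂, WeierstrassCurve.b₄]
  ring

theorem c6_Em (m : ℤ) : (Em m).c₆ = 64 * (4455 * m ^ 3) := by
  simp only [Em, WeierstrassCurve.c₆, WeierstrassCurve.b₂, WeierstrassCurve.b₄,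
    WeierstrassCurve.b₆]
  ring

lemma odd_pow_mod {k : ℤ} (hk : k % 2 = 1) : k ^ 2 % 4 = 1 := by
  have h : k % 4 = 1 ∨ k % 4 = 3 := by omega
  rw [pow_two, Int.mul_emod]
  rcases h with h | h <;> rw [h] <;> norm_num

/-- no integral equation with these invariants -/
lemma no_eqn {m k : ℤ} (h4 : m % 4 ≠ 1) (hs : Squarefree m) (hk : k % 2 = 1)
    (W : WeierstrassCurve ℤ) (e4 : W.c₄ = k ^ 4 * (273 * m ^ 2))
    (e6 : W.c₆ = k ^ 6 * (4455 * m ^ 3)) : False := by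
  have hk2 := odd_pow_mod hk
  have hk4 : k ^ 4 % 4 = 1 := by
    have : k ^ 4 = k ^ 2 * k ^ 2 := by ring
    rw [this, Int.mul_emod, hk2]; norm_num
  have hk6 : k ^ 6 % 4 = 1 := by
    have : k ^ 6 = k ^ 4 * k ^ 2 := by ring
    rw [this, Int.mul_emod, hk4, hk2]; norm_num
  simp only [WeierstrassCurve.c₄, WeierstrassCurve.c₆, WeierstrassCurve.b₂, WeierstrassCurve.b₄,
    WeierstrassCurve.b₆] at e4 e6
  rcases Int.emod_two_eq_zero_or_one m with hm | hm
  · -- `m` even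
    obtain ⟨t, rfl⟩ : ∃ t, m = 2 * t := ⟨m / 2, by omega⟩
    have ht : t % 2 = 1 := by
      by_contra hcon
      have h1 := hs 2 ⟨t / 2, by omega⟩
      rw [Int.isUnit_iff] at h1
      omega
    have ht2 := odd_pow_mod ht
    have r4 : k ^ 4 * (273 * (2 * t) ^ 2) = 4 * (273 * (k ^ 4 * t ^ 2)) := by ring
    have hkt : k ^ 4 * t ^ 2 % 4 = 1 := by rw [Int.mul_emod, hk4, ht2]; norm_num
    rw [r4] at e4
    rcases Int.emod_two_eq_zero_or_one W.a₁ with ha | ha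
    · obtain ⟨s, hs'⟩ : ∃ s, W.a₁ = 2 * s := ⟨W.a₁ / 2, by omega⟩
      rw [hs'] at e4
      have l4 : ((2 * s) ^ 2 + 4 * W.a₂) ^ 2 - 24 * (2 * W.a₄ + 2 * s * W.a₃) =
          16 * ((s ^ 2 + W.a₂) ^ 2 - 3 * (W.a₄ + s * W.a₃)) := by ring
      rw [l4] at e4
      omega
    · have h1 := odd_pow_mod ha
      have h2 : (W.a₁ ^ 2) ^ 2 % 4 = 1 := odd_pow_mod (by omega)
      have l4 : (W.a₁ ^ 2 + 4 * W.a₂) ^ 2 - 24 * (2 * W.a₄ + W.a₁ * W.a₃) =
          (W.a₁ ^ 2) ^ 2 + 4 * (2 * W.a₁ ^ 2 * W.a₂ + 4 * W.a₂ ^ 2 -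
            6 * (2 * W.a₄ + W.a₁ * W.a₃)) := by ring
      rw [l4] at e4
      omega
  · have hm4 : m % 4 = 3 := by omega
    have hm2 := odd_pow_mod hm
    have hm3 : m ^ 3 % 4 = 3 := by
      have : m ^ 3 = m ^ 2 * m := by ring
      rw [this, Int.mul_emod, hm2, hm4]; norm_num
    have h46 : k ^ 6 * (4455 * m ^ 3) % 4 = 1 := by
      have e : k ^ 6 * (4455 * m ^ 3) = 4455 * (k ^ 6 * m ^ 3) := by ring
      have e' : k ^ 6 * m ^ 3 % 4 = 3 := by rw [Int.mul_emod, hk6, hm3]; norm_num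
      rw [e]
      omega
    have h44 : k ^ 4 * (273 * m ^ 2) % 2 = 1 := by
      have e : k ^ 4 * (273 * m ^ 2) = 273 * (k ^ 4 * m ^ 2) := by ring
      have e' : k ^ 4 * m ^ 2 % 4 = 1 := by rw [Int.mul_emod, hk4, hm2]; norm_num
      rw [e]
      omega
    rcases Int.emod_two_eq_zero_or_one W.a₁ with ha | ha
    · obtain ⟨s, hs'⟩ : ∃ s, W.a₁ = 2 * s := ⟨W.a₁ / 2, by omega⟩
      rw [hs'] at e4
      have l4 : ((2 * s) ^ 2 + 4 * W.a₂) ^ 2 - 24 * (2 * W.a₄ + 2 * s * W.a₃) =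
          16 * ((s ^ 2 + W.a₂) ^ 2 - 3 * (W.a₄ + s * W.a₃)) := by ring
      rw [l4] at e4
      omega
    · have h1 := odd_pow_mod ha
      have hb : (W.a₁ ^ 2 + 4 * W.a₂) % 4 = 1 := by omega
      have hb3 : (W.a₁ ^ 2 + 4 * W.a₂) ^ 3 % 4 = 1 := by
        have e : (W.a₁ ^ 2 + 4 * W.a₂) ^ 3 = (W.a₁ ^ 2 + 4 * W.a₂) ^ 2 * (W.a₁ ^ 2 + 4 * W.a₂) := by
          ring
        rw [e, Int.mul_emod, odd_pow_mod (by omega), hb]; norm_num
      have l6 : -(W.a₁ ^ 2 + 4 * W.a₂) ^ 3 + 36 * (W.a₁ ^ 2 + 4 * W.a₂) * (2 * W.a₄ + W.a₁ * W.a₃) -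
          216 * (W.a₃ ^ 2 + 4 * W.a₆) = -(W.a₁ ^ 2 + 4 * W.a₂) ^ 3 +
            4 * (9 * (W.a₁ ^ 2 + 4 * W.a₂) * (2 * W.a₄ + W.a₁ * W.a₃) -
              54 * (W.a₃ ^ 2 + 4 * W.a₆)) := by ring
      rw [l6] at e6
      omega

/-- **`E_m` is minimal**, `m ≢ 1 mod 4`. -/
theorem min_Em {m : ℤ} (h4 : m % 4 ≠ 1) (hs : Squarefree m) : IsGloballyMinimal (Em m) := by
  have hΔ := Em_Δ m
  have hM0 : m ≠ 0 := hs.ne_zero
  refine ⟨?_, ?_⟩
  · rw [hΔ]
    exact mul_ne_zero (by norm_num) (pow_ne_zero _ hM0)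
  · intro W' C h
    have h1 := congrArg WeierstrassCurve.Δ h
    rw [WeierstrassCurve.variableChange_Δ, WeierstrassCurve.map_Δ, WeierstrassCurve.map_Δ] at h1
    have h1c := congrArg WeierstrassCurve.c₄ h
    rw [WeierstrassCurve.variableChange_c₄, WeierstrassCurve.map_c₄, WeierstrassCurve.map_c₄] at h1c
    have h1d := congrArg WeierstrassCurve.c₆ h
    rw [WeierstrassCurve.variableChange_c₆, WeierstrassCurve.map_c₆, WeierstrassCurve.map_c₆] at h1d
    simp only [eq_intCast] at h1 h1c h1d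
    obtain ⟨q, hq⟩ : ∃ q : ℚ, q = ((C.u⁻¹ : ℚˣ) : ℚ) := ⟨_, rfl⟩
    rw [← hq] at h1 h1c h1d
    have hq0 : q ≠ 0 := by rw [hq]; exact Units.ne_zero _
    have hnd : q * q.den = q.num := Rat.mul_den_eq_num q
    have h2 : (q.num : ℚ) ^ 12 * ((Em m).Δ : ℚ) = (W'.Δ : ℚ) * (q.den : ℚ) ^ 12 := by
      rw [← h1, ← hnd]
      ring
    have h2c : (q.num : ℚ) ^ 4 * ((Em m).c₄ : ℚ) = (W'.c₄ : ℚ) * (q.den : ℚ) ^ 4 := by
      rw [← h1c, ← hnd]
      ring
    have h2d : (q.num : ℚ) ^ 6 * ((Em m).c₆ : ℚ) = (W'.c₆ : ℚ) * (q.den : ℚ) ^ 6 := by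
      rw [← h1d, ← hnd]
      ring
    have h3 : q.num ^ 12 * (Em m).Δ = W'.Δ * (q.den : ℤ) ^ 12 := by exact_mod_cast h2
    have h3c : q.num ^ 4 * (Em m).c₄ = W'.c₄ * (q.den : ℤ) ^ 4 := by exact_mod_cast h2c
    have h3d : q.num ^ 6 * (Em m).c₆ = W'.c₆ * (q.den : ℤ) ^ 6 := by exact_mod_cast h2d
    have hcop0 : IsCoprime ((q.den : ℤ)) (q.num) := by
      rw [Int.isCoprime_iff_gcd_eq_one, Int.gcd_comm]
      exact q.reduced
    have hcop : IsCoprime ((q.den : ℤ) ^ 12) (q.num ^ 12) := IsCoprime.pow hcop0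
    have h5 : (q.den : ℤ) ^ 12 ∣ (Em m).Δ :=
      hcop.dvd_of_dvd_mul_left ⟨W'.Δ, by rw [h3]; ring⟩
    have e12 : (2 : ℤ) ^ 12 * 17 ^ 2 * m ^ 6 = 2 ^ 12 * (17 ^ 2 * m ^ 6) := by ring
    rw [hΔ, e12] at h5
    -- odd prime factors
    have hodd : ∀ r : ℕ, r.Prime → r ≠ 2 → ¬ r ∣ q.den := by
      intro r hr hr2 hrd
      refine prime_pow_dvd hr hs ?_
      have h6 : ((r : ℤ)) ^ 12 ∣ 2 ^ 12 * (17 ^ 2 * m ^ 6) :=
        (pow_dvd_pow_of_dvd (by exact_mod_cast hrd) 12).trans h5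
      have h7 : IsCoprime ((r : ℤ) ^ 12) ((2 : ℤ) ^ 12) := by
        refine IsCoprime.pow ?_
        rw [show (2 : ℤ) = ((2 : ℕ) : ℤ) by norm_num, Nat.isCoprime_iff_coprime]
        exact (Nat.coprime_primes hr Nat.prime_two).2 hr2
      exact h7.dvd_of_dvd_mul_left h6
    have h4d : ¬ 4 ∣ q.den := by
      intro h
      refine prime_pow_dvd Nat.prime_two hs ?_
      have h6 : ((4 : ℤ)) ^ 12 ∣ 2 ^ 12 * (17 ^ 2 * m ^ 6) :=
        (pow_dvd_pow_of_dvd (by exact_mod_cast h) 12).trans h5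
      have e4 : (4 : ℤ) ^ 12 = 2 ^ 12 * 2 ^ 12 := by norm_num
      rw [e4] at h6
      have h7 := Int.dvd_of_mul_dvd_mul_left (by norm_num : (2 : ℤ) ^ 12 ≠ 0) h6
      exact_mod_cast h7
    have h8 : q.den = 1 := by
      by_contra hne
      have h2d' : 2 ∣ q.den := by
        obtain ⟨r, hr, hrd⟩ := Nat.exists_prime_and_dvd hne
        by_cases hr2 : r = 2
        · rwa [hr2] at hrd
        · exact absurd hrd (hodd r hr hr2)
      obtain ⟨e, he⟩ := h2d'
      have he1 : e = 1 := by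
        by_contra hne1
        obtain ⟨r, hr, hrd⟩ := Nat.exists_prime_and_dvd hne1
        by_cases hr2 : r = 2
        · apply h4d
          obtain ⟨f, hf⟩ := hrd
          exact ⟨f, by rw [he, hf, hr2]; ring⟩
        · exact hodd r hr hr2 (by rw [he]; exact hrd.mul_left 2)
      have hd2 : q.den = 2 := by rw [he, he1]
      have hno : q.num % 2 = 1 := by
        by_contra hcon
        have h9 : (2 : ℤ) ∣ q.num := by omega
        have h10 : (2 : ℤ) ∣ (q.den : ℤ) := by rw [hd2]; norm_num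
        have h11 := hcop0.isUnit_of_dvd' h10 h9
        rw [Int.isUnit_iff] at h11
        omega
      refine no_eqn h4 hs hno W' ?_ ?_
      · rw [hd2, c4_Em] at h3c
        push_cast at h3c
        linarith
      · rw [hd2, c6_Em] at h3d
        push_cast at h3d
        linarith
    rw [h8] at h3
    have h9 : W'.Δ = q.num ^ 12 * (Em m).Δ := by rw [h3]; simp
    rw [h9, abs_mul]
    have h10 : 1 ≤ |q.num ^ 12| := by
      apply Int.one_le_abs
      exact pow_ne_zero _ (Rat.num_ne_zero.2 hq0)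
    nlinarith [abs_nonneg (Em m).Δ]

/-! ### The product of the Tamagawa numbers -/

/-- the prime factors of the discriminant of the minimal equation, odd discriminants -/
theorem pf_N {m : ℤ} (h4 : m % 4 = 1) :
    (WN m).Δ.natAbs.primeFactors = insert 17 m.natAbs.primeFactors := by
  have hn0 : m.natAbs ≠ 0 := by omega
  have e : (WN m).Δ.natAbs = 17 ^ 2 * m.natAbs ^ 6 := by
    rw [WN_Δ (by omega), Int.natAbs_mul, Int.natAbs_pow]
    norm_num
  rw [e, Nat.primeFactors_mul (by norm_num) (pow_ne_zero _ hn0),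
    Nat.primeFactors_pow _ (by norm_num), Nat.primeFactors_pow _ (by norm_num),
    Nat.Prime.primeFactors (by norm_num), Finset.insert_eq]

/-- the prime factors of the discriminant of the minimal equation, even discriminants -/
theorem pf_E {m : ℤ} (hm : m ≠ 0) :
    (Em m).Δ.natAbs.primeFactors = insert 17 (4 * m.natAbs).primeFactors := by
  have hm' : m.natAbs ≠ 0 := Int.natAbs_ne_zero.2 hm
  have e : (Em m).Δ.natAbs = 17 ^ 2 * (2 ^ 12 * m.natAbs ^ 6) := by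
    rw [Em_Δ, Int.natAbs_mul, Int.natAbs_pow]
    norm_num
    ring
  have h4 : (4 : ℕ).primeFactors = {2} := by
    rw [show (4 : ℕ) = 2 ^ 2 by norm_num, Nat.primeFactors_pow _ (by norm_num),
      Nat.Prime.primeFactors Nat.prime_two]
  rw [e, Nat.primeFactors_mul (by norm_num) (mul_ne_zero (by norm_num) (pow_ne_zero _ hm')),
    Nat.primeFactors_pow _ (by norm_num),
    Nat.primeFactors_mul (by norm_num) (pow_ne_zero _ hm'), Nat.primeFactors_pow _ (by norm_num),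
    Nat.primeFactors_pow _ (by norm_num), Nat.Prime.primeFactors (by norm_num),
    Nat.Prime.primeFactors Nat.prime_two, Nat.primeFactors_mul (by norm_num) hm', h4,
    Finset.insert_eq]

/-- the contribution of `17` if it does not divide `n` -/
def t17 (n : ℕ) : ℕ := if 17 ∣ n then 1 else 2

/-- the product over the prime factors, from the local values -/
lemma prod_tam (n : ℕ) (hn : n ≠ 0) (f : ℕ → ℕ) (h4 : ∀ p ∈ n.primeFactors, f p = 4)
    (h3 : ¬ 17 ∣ n → f 17 = 2) :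
    ∏ p ∈ insert 17 n.primeFactors, f p = 4 ^ n.primeFactors.card * t17 n := by
  have p17 : Nat.Prime 17 := by norm_num
  have m17 : 17 ∈ n.primeFactors ↔ 17 ∣ n := by
    rw [Nat.mem_primeFactors]
    exact ⟨fun h => h.2.1, fun h => ⟨p17, h, hn⟩⟩
  have hp : ∏ p ∈ n.primeFactors, f p = 4 ^ n.primeFactors.card := by
    rw [Finset.prod_congr rfl h4, Finset.prod_const]
  unfold t17
  by_cases h : 17 ∣ n
  · rw [if_pos h, Finset.insert_eq_of_mem (m17.2 h), hp, mul_one]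
  · rw [if_neg h, Finset.prod_insert (fun h' => h (m17.1 h')), hp, h3 h]
    ring

/-- **The product of the Tamagawa numbers**, odd discriminants. -/
theorem tamProd_N {m : ℤ} (h4 : m % 4 = 1) (hs : Squarefree m) :
    tamProd (WN m) = 4 ^ m.natAbs.primeFactors.card * t17 m.natAbs := by
  have p17 : Nat.Prime 17 := by norm_num
  unfold tamProd
  rw [pf_N h4]
  refine prod_tam m.natAbs (Int.natAbs_ne_zero.2 hs.ne_zero) _ ?_ ?_
  · intro p hp
    obtain ⟨h1, h2, -⟩ := Nat.mem_primeFactors.1 hp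
    rw [dif_pos h1]
    haveI := Fact.mk h1
    exact tam_WN_ram h4 hs (Int.natCast_dvd.2 h2)
  · intro h
    rw [dif_pos p17]
    haveI := Fact.mk p17
    refine tam_WN_17 h4 fun h' => h ?_
    exact Int.natCast_dvd.1 (by exact_mod_cast h')

/-- **The product of the Tamagawa numbers**, even discriminants. -/
theorem tamProd_E {m : ℤ} (h4 : m % 4 ≠ 1) (hs : Squarefree m) :
    tamProd (Em m) = 4 ^ (4 * m.natAbs).primeFactors.card * t17 (4 * m.natAbs) := by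
  have p17 : Nat.Prime 17 := by norm_num
  have hm' : m.natAbs ≠ 0 := Int.natAbs_ne_zero.2 hs.ne_zero
  unfold tamProd
  rw [pf_E hs.ne_zero]
  refine prod_tam (4 * m.natAbs) (by omega) _ ?_ ?_
  · intro p hp
    obtain ⟨h1, h2, -⟩ := Nat.mem_primeFactors.1 hp
    rw [dif_pos h1]
    haveI := Fact.mk h1
    by_cases hp2 : p = 2
    · subst hp2
      exact tam_two hs h4
    · refine tam_ram hp2 hs ?_
      rcases h1.dvd_mul.1 h2 with h5 | h5
      · have h6 : p ∣ 2 ^ 2 := by simpa using h5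
        exact absurd ((Nat.prime_dvd_prime_iff_eq h1 Nat.prime_two).1 (h1.dvd_of_dvd_pow h6)) hp2
      · exact Int.natCast_dvd.2 h5
  · intro h
    rw [dif_pos p17]
    haveI := Fact.mk p17
    refine tam_17 fun h' => h ?_
    have h6 : 17 ∣ m.natAbs := Int.natCast_dvd.1 (by exact_mod_cast h')
    exact h6.mul_left 4

end Pool.Agent.N871.S17
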